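import Mathlib

open scoped InnerProductSpace ComplexConjugate
open Module.End Module

namespace Pool.Agent.Helper46.GKW

universe u
variable {E : Type u} [NormedAddCommGroup E] [InnerProductSpace ℂ E] [CompleteSpace E]

/-- Eigenbasis of a compact self-adjoint operator. -/
theorem exists_eigenbasis (A : E →L[ℂ] E) (hA : (A : E →ₗ[ℂ] E).IsSymmetric)
    (hc : IsCompactOperator A) :
    ∃ (ι : Type u) (b : HilbertBasis ι ℂ E) (μ : ι → ℝ), ∀ i, A (b i) = (μ i : ℂ) • b i := by
  classical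
  have hort := ContinuousLinearMap.orthogonalComplement_iSup_eigenspaces_eq_bot hc hA
  have hfam := hA.orthogonalFamily_eigenspaces
  have hclosed : ∀ μ : ℂ, IsClosed (eigenspace (A : Module.End ℂ E) μ : Set E) := by
    intro μ
    have : (eigenspace (A : Module.End ℂ E) μ : Set E) = {x | A x = μ • x} := by
      ext x; simp
    rw [this]
    exact isClosed_eq A.continuous (continuous_const_smul μ)
  have hcomp : ∀ μ : ℂ, CompleteSpace (eigenspace (A : Module.End ℂ E) μ) := fun μ =>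
    (hclosed μ).completeSpace_coe
  choose w b hb using fun μ : ℂ => exists_hilbertBasis ℂ (eigenspace (A : Module.End ℂ E) μ)
  let v : (Σ μ : ℂ, w μ) → E := fun p => ((b p.1 p.2 : eigenspace (A : Module.End ℂ E) p.1) : E)
  have hv : Orthonormal ℂ v :=
    hfam.orthonormal_sigma_orthonormal (fun μ => (b μ).orthonormal)
  have hspan : (Submodule.span ℂ (Set.range v))ᗮ = ⊥ := by
    rw [eq_bot_iff, ← hort]
    intro x hx
    rw [Submodule.mem_orthogonal] at hx
    rw [← Submodule.iInf_orthogonal, Submodule.mem_iInf]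
    intro μ
    rw [Submodule.mem_orthogonal]
    intro u hu
    have h1 : HasSum (fun i => (b μ).repr ⟨u, hu⟩ i • (b μ i)) ⟨u, hu⟩ := (b μ).hasSum_repr _
    have h2 : HasSum (fun i => (b μ).repr ⟨u, hu⟩ i • ((b μ i : eigenspace (A : Module.End ℂ E) μ) : E)) u := by
      have := h1.mapL (eigenspace (A : Module.End ℂ E) μ).subtypeL
      simpa using this
    have h3 := h2.mapL (innerSL ℂ x)
    have h4 : (fun i : w μ => (innerSL ℂ x)
        ((b μ).repr ⟨u, hu⟩ i • ((b μ i : eigenspace (A : Module.End ℂ E) μ) : E))) =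
        fun _ => (0 : ℂ) := by
      funext i
      have := hx (v ⟨μ, i⟩) (Submodule.subset_span ⟨⟨μ, i⟩, rfl⟩)
      have h5 : ⟪x, v ⟨μ, i⟩⟫_ℂ = 0 := by
        rw [← inner_conj_symm, this, map_zero]
      simp only [innerSL_apply_apply, inner_smul_right]
      rw [show ((b μ i : eigenspace (A : Module.End ℂ E) μ) : E) = v ⟨μ, i⟩ from rfl, h5, mul_zero]
    rw [h4] at h3
    have h6 : ⟪x, u⟫_ℂ = 0 := h3.unique hasSum_zero
    rw [← inner_conj_symm, h6, map_zero]
  let B := HilbertBasis.mkOfOrthogonalEqBot hv hspan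
  have hB : ⇑B = v := HilbertBasis.coe_mkOfOrthogonalEqBot hv hspan
  have hvA : ∀ p, A (v p) = p.1 • v p := by
    intro p
    have := (b p.1 p.2 : eigenspace (A : Module.End ℂ E) p.1).2
    rw [mem_eigenspace_iff] at this
    exact this
  refine ⟨(Σ μ : ℂ, w μ), B, fun p => p.1.re, ?_⟩
  intro p
  rw [hB, hvA p]
  have hne : v p ≠ 0 := hv.ne_zero p
  have hev : HasEigenvalue (A : Module.End ℂ E) p.1 :=
    hasEigenvalue_of_hasEigenvector (x := v p) ⟨mem_eigenspace_iff.2 (hvA p), hne⟩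
  have := hA.conj_eigenvalue_eq_self hev
  rw [Complex.conj_eq_iff_re.1 this]

variable {ι : Type u}

theorem hasSum_normSq (b : HilbertBasis ι ℂ E) (v : E) :
    HasSum (fun i => ‖⟪b i, v⟫_ℂ‖ ^ 2) (‖v‖ ^ 2) := by
  have h := b.hasSum_inner_mul_inner v v
  have h2 := Complex.hasSum_re h
  convert h2 using 1
  · funext i
    rw [← inner_conj_symm v (b i), ← Complex.normSq_eq_conj_mul_self, Complex.ofReal_re,
      Complex.normSq_eq_norm_sq]
  · rw [inner_self_eq_norm_sq_to_K]
    norm_cast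

theorem hasSum_quad (A : E →L[ℂ] E) (hA : (A : E →ₗ[ℂ] E).IsSymmetric)
    (b : HilbertBasis ι ℂ E) (μ : ι → ℝ) (hb : ∀ i, A (b i) = (μ i : ℂ) • b i) (v : E) :
    HasSum (fun i => μ i * ‖⟪b i, v⟫_ℂ‖ ^ 2) (⟪v, A v⟫_ℂ).re := by
  have h := b.hasSum_inner_mul_inner v (A v)
  have h2 := Complex.hasSum_re h
  convert h2 using 1
  funext i
  have h3 : ⟪b i, A v⟫_ℂ = μ i * ⟪b i, v⟫_ℂ := by
    have := hA (b i) v
    simp only [ContinuousLinearMap.coe_coe] at this
    rw [← this, hb i, inner_smul_left, Complex.conj_ofReal]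
  rw [h3, ← inner_conj_symm v (b i)]
  rw [show (starRingEnd ℂ) ⟪b i, v⟫_ℂ * (↑(μ i) * ⟪b i, v⟫_ℂ) =
    (μ i : ℂ) * ((starRingEnd ℂ) ⟪b i, v⟫_ℂ * ⟪b i, v⟫_ℂ) by ring,
    ← Complex.normSq_eq_conj_mul_self, Complex.normSq_eq_norm_sq]
  norm_cast

theorem eq_zero_of_orth (b : HilbertBasis ι ℂ E) (μ : ι → ℝ) (s : ℝ) (v : E) (q : ℝ)
    (hq : HasSum (fun i => μ i * ‖⟪b i, v⟫_ℂ‖ ^ 2) q)
    (h : ∀ i, s ≤ μ i → ⟪b i, v⟫_ℂ = 0) (hv : s * ‖v‖ ^ 2 ≤ q) : v = 0 := by
  have h1 := ((hasSum_normSq b v).mul_left s).sub hq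
  have hnn : ∀ i, 0 ≤ s * ‖⟪b i, v⟫_ℂ‖ ^ 2 - μ i * ‖⟪b i, v⟫_ℂ‖ ^ 2 := by
    intro i
    by_cases hi : s ≤ μ i
    · simp [h i hi]
    · push Not at hi
      rw [← sub_mul]
      exact mul_nonneg (by linarith) (by positivity)
  have h0 : s * ‖v‖ ^ 2 - q = 0 := le_antisymm (by linarith) (h1.nonneg hnn)
  rw [h0] at h1
  have h2 := (hasSum_zero_iff_of_nonneg hnn).1 h1
  have h3 : ∀ i, ‖⟪b i, v⟫_ℂ‖ ^ 2 = 0 := by
    intro i
    by_cases hi : s ≤ μ i
    · simp [h i hi]
    · push Not at hi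
      have := congrFun h2 i
      simp only [Pi.zero_apply] at this
      rw [← sub_mul] at this
      rcases mul_eq_zero.1 this with h4 | h4
      · linarith
      · exact h4
  have h4 := hasSum_normSq b v
  simp only [h3] at h4
  have h5 := h4.unique hasSum_zero
  simpa using h5

theorem le_quad_of_supp (b : HilbertBasis ι ℂ E) (μ : ι → ℝ) (t : ℝ) (v : E) (q : ℝ)
    (hq : HasSum (fun i => μ i * ‖⟪b i, v⟫_ℂ‖ ^ 2) q)
    (h : ∀ i, ⟪b i, v⟫_ℂ ≠ 0 → t ≤ μ i) : t * ‖v‖ ^ 2 ≤ q := by
  have h1 := hq.sub ((hasSum_normSq b v).mul_left t)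
  have hnn : ∀ i, 0 ≤ μ i * ‖⟪b i, v⟫_ℂ‖ ^ 2 - t * ‖⟪b i, v⟫_ℂ‖ ^ 2 := by
    intro i
    by_cases hi : ⟪b i, v⟫_ℂ = 0
    · simp [hi]
    · rw [← sub_mul]
      exact mul_nonneg (by linarith [h i hi]) (by positivity)
  linarith [h1.nonneg hnn]

/-- Counting lemma. -/
theorem card_le_of_form (b : HilbertBasis ι ℂ E) (μ : ι → ℝ) (Q : E → ℝ)
    (hQ : ∀ v, HasSum (fun i => μ i * ‖⟪b i, v⟫_ℂ‖ ^ 2) (Q v))
    (T : E →ₗ[ℂ] E) (c : ℝ) (hc : 0 < c) (hT : ∀ v, ‖T v‖ ^ 2 ≤ c * ‖v‖ ^ 2)
    (κ : Type) [Fintype κ] (L : E →ₗ[ℂ] (κ → ℂ))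
    (hTQ : ∀ v, L v = 0 → - Q v ≤ Q (T v))
    (t : ℝ) (ht : 0 < t)
    (G F : Finset ι) (hG : ∀ i ∈ G, μ i ≤ - t) (hF : ∀ i, t / c ≤ μ i → i ∈ F) :
    G.card ≤ F.card + Fintype.card κ := by
  classical
  let V : (G → ℂ) →ₗ[ℂ] E := Fintype.linearCombination ℂ (fun i : G => b (i : ι))
  let Φ : (G → ℂ) →ₗ[ℂ] ((F → ℂ) × (κ → ℂ)) :=
    LinearMap.prod (LinearMap.pi (fun j : F => ((innerSL ℂ (b (j : ι))).toLinearMap ∘ₗ T ∘ₗ V)))
      (L ∘ₗ V)
  have hinner : ∀ a : G → ℂ, ∀ i, ⟪b i, V a⟫_ℂ ≠ 0 → i ∈ G := by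
    intro a i hi
    by_contra hn
    apply hi
    simp only [V, Fintype.linearCombination_apply, inner_sum, inner_smul_right]
    apply Finset.sum_eq_zero
    intro j _
    have hij : i ≠ (j : ι) := fun h => hn (h ▸ j.2)
    have := b.orthonormal.2 hij
    rw [this, mul_zero]
  have hVinj : ∀ a : G → ℂ, V a = 0 → a = 0 := by
    intro a ha
    have hli : LinearIndependent ℂ (fun i : G => b (i : ι)) :=
      b.orthonormal.linearIndependent.comp _ Subtype.val_injective
    funext i
    have := Fintype.linearIndependent_iff.1 hli a (by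
      simpa [V, Fintype.linearCombination_apply] using ha) i
    simpa using this
  have hinj : Function.Injective Φ := by
    rw [← LinearMap.ker_eq_bot, LinearMap.ker_eq_bot']
    intro a ha
    apply hVinj
    set v := V a with hv
    have h1 : ∀ j ∈ F, ⟪b j, T v⟫_ℂ = 0 := by
      intro j hj
      have := congrFun (congrArg Prod.fst ha) ⟨j, hj⟩
      simpa [Φ] using this
    have h2 : L v = 0 := by
      have := congrArg Prod.snd ha
      simpa [Φ] using this
    have h3 : - Q v ≤ Q (T v) := hTQ v h2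
    have h4 : t * ‖v‖ ^ 2 ≤ - Q v := by
      refine le_quad_of_supp b (fun i => - μ i) t v (- Q v) ?_ ?_
      · have := (hQ v).neg
        simpa only [neg_mul] using this
      · intro i hi
        have := hG i (hinner a i hi)
        change t ≤ - μ i
        linarith
    have h5 : t / c * ‖T v‖ ^ 2 ≤ Q (T v) := by
      have : t / c * ‖T v‖ ^ 2 ≤ t / c * (c * ‖v‖ ^ 2) :=
        mul_le_mul_of_nonneg_left (hT v) (by positivity)
      have h6 : t / c * (c * ‖v‖ ^ 2) = t * ‖v‖ ^ 2 := by field_simp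
      linarith
    have h6 : T v = 0 :=
      eq_zero_of_orth b μ (t / c) (T v) (Q (T v)) (hQ _) (fun i hi => h1 i (hF i hi)) h5
    have h7 : Q (T v) = 0 := by
      have := hQ (T v)
      rw [h6] at this ⊢
      simp only [inner_zero_right, norm_zero] at this
      simp only [ne_eq, OfNat.ofNat_ne_zero, not_false_eq_true, zero_pow, mul_zero] at this
      exact this.unique hasSum_zero
    have h8 : t * ‖v‖ ^ 2 ≤ 0 := by linarith
    have h9 : ‖v‖ ^ 2 ≤ 0 := by
      by_contra hcon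
      push Not at hcon
      have := mul_pos ht hcon
      linarith
    have h10 : ‖v‖ = 0 := by
      have := sq_nonneg ‖v‖
      have h11 : ‖v‖ ^ 2 = 0 := le_antisymm h9 this
      exact pow_eq_zero_iff (two_ne_zero) |>.1 h11
    exact norm_eq_zero.1 h10
  have := LinearMap.finrank_le_finrank_of_injective hinj
  simpa using this


/-- Interlacing forces simple eigenvalues with alternating signs. -/
theorem alternate_of_counts (μ : ι → ℝ) (hfin : ∀ t : ℝ, 0 < t → {i | t ≤ |μ i|}.Finite)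
    (hM : ∀ t : ℝ, 0 < t → {i | μ i ≤ - t}.ncard ≤ {i | t < μ i}.ncard)
    (hP : ∀ t : ℝ, 0 < t → {i | t ≤ μ i}.ncard ≤ {i | μ i < - t}.ncard + 1)
    (i : ι) (hi : μ i ≠ 0) :
    (∀ j, |μ j| = |μ i| → j = i) ∧ 0 < (-1 : ℝ) ^ ({j | |μ i| < |μ j|}.ncard) * μ i := by
  have hfP : ∀ t : ℝ, 0 < t → {i | t ≤ μ i}.Finite := fun t ht =>
    (hfin t ht).subset (fun j hj => by
      have h1 : t ≤ μ j := hj
      exact le_trans h1 (le_abs_self _))
  have hfM : ∀ t : ℝ, 0 < t → {i | μ i ≤ - t}.Finite := fun t ht =>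
    (hfin t ht).subset (fun j hj => by
      have h1 : μ j ≤ - t := hj
      change t ≤ |μ j|
      have := neg_abs_le (μ j)
      rw [abs_of_neg (by linarith)]
      linarith)
  have hfP' : ∀ t : ℝ, 0 < t → {i | t < μ i}.Finite := fun t ht =>
    (hfP t ht).subset (fun j hj => by
      have h1 : t < μ j := hj
      exact h1.le)
  have hfM' : ∀ t : ℝ, 0 < t → {i | μ i < - t}.Finite := fun t ht =>
    (hfM t ht).subset (fun j hj => by
      have h1 : μ j < - t := hj
      exact h1.le)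
  set t := |μ i| with ht
  have htpos : 0 < t := abs_pos.2 hi
  have hsubP : {j | t < μ j} ⊆ {j | t ≤ μ j} := by
    intro j hj
    have h1 : t < μ j := hj
    exact h1.le
  have hsubM : {j | μ j < - t} ⊆ {j | μ j ≤ - t} := by
    intro j hj
    have h1 : μ j < - t := hj
    exact h1.le
  have hsplit : {j | t < |μ j|} = {j | t < μ j} ∪ {j | μ j < - t} := by
    ext j
    simp only [Set.mem_ofPred_eq, Set.mem_union]
    rw [lt_abs]
    constructor
    · rintro (h | h)
      · exact Or.inl h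
      · right; linarith
    · rintro (h | h)
      · exact Or.inl h
      · right; linarith
  have hdisj : Disjoint {j | t < μ j} {j | μ j < - t} := by
    rw [Set.disjoint_left]
    intro j h1 h2
    simp only [Set.mem_ofPred_eq] at h1 h2
    linarith
  have hcard : {j | t < |μ j|}.ncard = {j | t < μ j}.ncard + {j | μ j < - t}.ncard := by
    rw [hsplit]
    exact Set.ncard_union_eq hdisj (hfP' t htpos) (hfM' t htpos)
  have e1 : {j | μ j < - t}.ncard ≤ {j | μ j ≤ - t}.ncard :=
    Set.ncard_le_ncard hsubM (hfM t htpos)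
  have e2 := hM t htpos
  have e3 : {j | t < μ j}.ncard ≤ {j | t ≤ μ j}.ncard :=
    Set.ncard_le_ncard hsubP (hfP t htpos)
  have e4 := hP t htpos
  rcases lt_or_gt_of_ne hi with hneg | hpos
  · -- negative case
    have hti : μ i = - t := by rw [ht, abs_of_neg hneg]; ring
    have himem : i ∈ {j | μ j ≤ - t} := by simp [hti]
    have hss : insert i {j | μ j < - t} ⊆ {j | μ j ≤ - t} :=
      Set.insert_subset himem hsubM
    have hnot : i ∉ {j | μ j < - t} := by simp [hti]
    have f1 : {j | μ j < - t}.ncard + 1 ≤ {j | μ j ≤ - t}.ncard := by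
      rw [← Set.ncard_insert_of_notMem hnot (hfM' t htpos)]
      exact Set.ncard_le_ncard hss (hfM t htpos)
    have g1 : {j | μ j ≤ - t}.ncard ≤ (insert i {j | μ j < - t}).ncard := by
      rw [Set.ncard_insert_of_notMem hnot (hfM' t htpos)]; omega
    have g2 : insert i {j | μ j < - t} = {j | μ j ≤ - t} :=
      Set.eq_of_subset_of_ncard_le hss g1 (hfM t htpos)
    have g3 : {j | t < μ j} = {j | t ≤ μ j} :=
      Set.eq_of_subset_of_ncard_le hsubP (by omega) (hfP t htpos)
    constructor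
    · intro j hj
      rcases le_or_gt 0 (μ j) with h0 | h0
      · rw [abs_of_nonneg h0] at hj
        have : j ∈ {j | t ≤ μ j} := by simp [hj]
        rw [← g3] at this
        simp only [Set.mem_ofPred_eq] at this
        linarith
      · rw [abs_of_neg h0] at hj
        have : j ∈ {j | μ j ≤ - t} := by
          simp only [Set.mem_ofPred_eq]; linarith
        rw [← g2] at this
        rcases this with h | h
        · exact h
        · simp only [Set.mem_ofPred_eq] at h
          linarith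
    · have hodd : {j | t < |μ j|}.ncard = 2 * {j | μ j < - t}.ncard + 1 := by
        rw [hcard]; omega
      rw [hodd, pow_succ, pow_mul]
      norm_num
      exact hneg
  · have hti : μ i = t := by rw [ht, abs_of_pos hpos]
    have himem : i ∈ {j | t ≤ μ j} := by simp [hti]
    have hss : insert i {j | t < μ j} ⊆ {j | t ≤ μ j} :=
      Set.insert_subset himem hsubP
    have hnot : i ∉ {j | t < μ j} := by simp [hti]
    have f1 : {j | t < μ j}.ncard + 1 ≤ {j | t ≤ μ j}.ncard := by
      rw [← Set.ncard_insert_of_notMem hnot (hfP' t htpos)]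
      exact Set.ncard_le_ncard hss (hfP t htpos)
    have g1 : {j | t ≤ μ j}.ncard ≤ (insert i {j | t < μ j}).ncard := by
      rw [Set.ncard_insert_of_notMem hnot (hfP' t htpos)]; omega
    have g2 : insert i {j | t < μ j} = {j | t ≤ μ j} :=
      Set.eq_of_subset_of_ncard_le hss g1 (hfP t htpos)
    have g3 : {j | μ j < - t} = {j | μ j ≤ - t} :=
      Set.eq_of_subset_of_ncard_le hsubM (by omega) (hfM t htpos)
    constructor
    · intro j hj
      rcases le_or_gt 0 (μ j) with h0 | h0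
      · rw [abs_of_nonneg h0] at hj
        have : j ∈ {j | t ≤ μ j} := by simp [hj]
        rw [← g2] at this
        rcases this with h | h
        · exact h
        · simp only [Set.mem_ofPred_eq] at h
          linarith
      · rw [abs_of_neg h0] at hj
        have : j ∈ {j | μ j ≤ - t} := by
          simp only [Set.mem_ofPred_eq]; linarith
        rw [← g3] at this
        simp only [Set.mem_ofPred_eq] at this
        linarith
    · have heven : {j | t < |μ j|}.ncard = 2 * {j | μ j < - t}.ncard := by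
        rw [hcard]; omega
      rw [heven, pow_mul]
      norm_num
      exact hpos

/-- Enumeration. -/
theorem enumerate (μ : ι → ℝ) (hfin : ∀ t : ℝ, 0 < t → {i | t ≤ |μ i|}.Finite)
    (hinf : {i | μ i ≠ 0}.Infinite)
    (halt : ∀ i, μ i ≠ 0 → (∀ j, |μ j| = |μ i| → j = i) ∧
      0 < (-1 : ℝ) ^ ({j | |μ i| < |μ j|}.ncard) * μ i) :
    ∃ (lam : ℕ → ℝ) (σ : ℕ → ι), (∀ n, μ (σ n) = lam n) ∧ (∀ i, μ i ≠ 0 → ∃ n, σ n = i) ∧
      (∀ n, 0 < (-1 : ℝ) ^ n * lam n) ∧ StrictAnti (fun n => |lam n|) ∧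
      Filter.Tendsto lam Filter.atTop (nhds 0) := by
  classical
  let r : ι → ℕ := fun i => {j | |μ i| < |μ j|}.ncard
  have hf : ∀ i, μ i ≠ 0 → {j | |μ i| < |μ j|}.Finite := fun i hi =>
    (hfin |μ i| (abs_pos.2 hi)).subset (fun j hj => by
      have h1 : |μ i| < |μ j| := hj
      exact h1.le)
  have hr : ∀ i j, μ i ≠ 0 → |μ i| < |μ j| → r j < r i := by
    intro i j hi hij
    apply Set.ncard_lt_ncard _ (hf i hi)
    constructor
    · intro k hk
      exact lt_trans hij hk
    · intro hsub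
      have : j ∈ {k | |μ j| < |μ k|} := hsub hij
      simp at this
  have hinj : ∀ i j, μ i ≠ 0 → μ j ≠ 0 → r i = r j → i = j := by
    intro i j hi hj hij
    rcases lt_trichotomy |μ i| |μ j| with h | h | h
    · have := hr i j hi h; omega
    · exact (halt j hj).1 i h
    · have := hr j i hj h; omega
  have hsurj : ∀ m : ℕ, ∃ i, μ i ≠ 0 ∧ r i = m := by
    intro m
    have him : (r '' {i | μ i ≠ 0}).Infinite :=
      hinf.image (fun i hi j hj h => hinj i j hi hj h)
    obtain ⟨n, hn, hmn⟩ := him.exists_gt m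
    obtain ⟨i, hi, rfl⟩ := hn
    have hi' : μ i ≠ 0 := hi
    -- image of S under r is all of range (r i)
    have hS := hf i hi'
    have hne : ∀ j ∈ {j | |μ i| < |μ j|}, μ j ≠ 0 := by
      intro j hj h0
      simp only [Set.mem_ofPred_eq, h0, abs_zero] at hj
      exact absurd hj (not_lt.2 (abs_nonneg _))
    have himg : r '' {j | |μ i| < |μ j|} ⊆ Set.Iio (r i) := by
      rintro _ ⟨j, hj, rfl⟩
      exact hr i j hi' hj
    have hcard : (r '' {j | |μ i| < |μ j|}).ncard = r i := by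
      rw [Set.InjOn.ncard_image]
      intro j hj k hk hjk
      exact hinj j k (hne j hj) (hne k hk) hjk
    have heq : r '' {j | |μ i| < |μ j|} = Set.Iio (r i) := by
      apply Set.eq_of_subset_of_ncard_le himg _ (Set.finite_Iio _)
      rw [hcard, Set.ncard_eq_toFinset_card']
      simp
    have : m ∈ Set.Iio (r i) := hmn
    rw [← heq] at this
    obtain ⟨j, hj, hjm⟩ := this
    exact ⟨j, hne j hj, hjm⟩
  choose σ hσ0 hσ using hsurj
  refine ⟨fun n => μ (σ n), σ, fun n => rfl, ?_, ?_, ?_, ?_⟩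
  · intro i hi
    exact ⟨r i, hinj _ _ (hσ0 _) hi (hσ _)⟩
  · intro n
    have := (halt (σ n) (hσ0 n)).2
    have h2 : {j | |μ (σ n)| < |μ j|}.ncard = n := hσ n
    rwa [h2] at this
  · intro m n hmn
    by_contra hcon
    push Not at hcon
    rcases lt_or_eq_of_le hcon with h | h
    · have := hr (σ m) (σ n) (hσ0 m) h
      rw [hσ, hσ] at this
      omega
    · have := (halt (σ n) (hσ0 n)).1 (σ m) h
      have h2 := congrArg r this
      rw [hσ, hσ] at h2
      omega
  · rw [Metric.tendsto_atTop]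
    intro ε hε
    have hfinN : {n : ℕ | ε ≤ |μ (σ n)|}.Finite := by
      apply Set.Finite.of_finite_image (f := σ)
      · exact (hfin ε hε).subset (by rintro _ ⟨n, hn, rfl⟩; exact hn)
      · intro m _ n _ h
        have := congrArg r h
        rwa [hσ, hσ] at this
    obtain ⟨N, hN⟩ := hfinN.bddAbove
    refine ⟨N + 1, fun n hn => ?_⟩
    rw [Real.dist_eq, sub_zero]
    by_contra hcon
    push Not at hcon
    have := hN hcon
    omega

end Pool.Agent.Helper46.GKW
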