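import Mathlib
import Pool.Agent.Helper46.GKW.Stein

open scoped InnerProductSpace ComplexConjugate
open Module.End Module

namespace Pool.Agent.Helper46.GKW

universe u
variable {E : Type u} [NormedAddCommGroup E] [InnerProductSpace ℂ E] [CompleteSpace E]

/-- The bounded shift adjoint. -/
theorem exists_shift (c : ℕ → E) (C : ℝ)
    (h : ∀ v : ℕ →₀ ℂ, ‖Finsupp.linearCombination ℂ (fun n => c (n + 1)) v‖ ≤
      C * ‖Finsupp.linearCombination ℂ c v‖) (hC : 0 ≤ C) :
    ∃ T : E →L[ℂ] E, (∀ v, ‖T v‖ ≤ C * ‖v‖) ∧ ∀ n v, ⟪c n, T v⟫_ℂ = ⟪c (n + 1), v⟫_ℂ := by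
  classical
  let K : Submodule ℂ E := Submodule.span ℂ (Set.range c)
  let G : Submodule ℂ E := K.topologicalClosure
  have hGc : IsClosed (G : Set E) := K.isClosed_topologicalClosure
  have : CompleteSpace G := hGc.completeSpace_coe
  let e0 : (ℕ →₀ ℂ) →ₗ[ℂ] E := Finsupp.linearCombination ℂ c
  have hrange : ∀ v, e0 v ∈ G := by
    intro v
    apply K.le_topologicalClosure
    change e0 v ∈ Submodule.span ℂ (Set.range c)
    rw [← Finsupp.range_linearCombination]
    exact ⟨v, rfl⟩
  let e : (ℕ →₀ ℂ) →ₗ[ℂ] G := e0.codRestrict G hrange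
  let f : (ℕ →₀ ℂ) →ₗ[ℂ] E := Finsupp.linearCombination ℂ (fun n => c (n + 1))
  have hdense : DenseRange e := by
    intro x
    rw [Metric.mem_closure_iff]
    intro ε hε
    have hx : (x : E) ∈ closure (K : Set E) := x.2
    obtain ⟨y, hy, hxy⟩ := Metric.mem_closure_iff.1 hx ε hε
    have hy' : y ∈ Submodule.span ℂ (Set.range c) := hy
    rw [← Finsupp.range_linearCombination] at hy'
    obtain ⟨v, hv⟩ := hy'
    refine ⟨e v, ⟨v, rfl⟩, ?_⟩
    rw [Subtype.dist_eq]
    have : ((e v : G) : E) = y := hv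
    rw [this]
    exact hxy
  have hnorm : ∀ x, ‖f x‖ ≤ C * ‖e x‖ := h
  let R₀ : G →L[ℂ] E := f.extendOfNorm e
  have hR₀ : ∀ x, ‖R₀ x‖ ≤ C * ‖x‖ := LinearMap.norm_extendOfNorm_apply_le hdense C hnorm
  have hR₀' : ∀ v, R₀ (e v) = f v := LinearMap.extendOfNorm_eq hdense ⟨C, hnorm⟩
  let R : E →L[ℂ] E := R₀.comp G.orthogonalProjectionOnto
  have hR : ∀ x, ‖R x‖ ≤ C * ‖x‖ := by
    intro x
    refine (hR₀ _).trans ?_
    exact mul_le_mul_of_nonneg_left (G.norm_orthogonalProjectionOnto_apply_le x) hC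
  have hRc : ∀ n, R (c n) = c (n + 1) := by
    intro n
    have h1 : ((e (Finsupp.single n 1) : G) : E) = c n := by
      change e0 (Finsupp.single n 1) = c n
      simp [e0]
    have h2 : G.orthogonalProjectionOnto (c n) = e (Finsupp.single n 1) := by
      rw [← h1]
      exact G.orthogonalProjectionOnto_mem_subspace_eq_self _
    change R₀ (G.orthogonalProjectionOnto (c n)) = _
    rw [h2, hR₀']
    simp [f]
  refine ⟨ContinuousLinearMap.adjoint R, ?_, ?_⟩
  · intro v
    have h1 : ‖ContinuousLinearMap.adjoint R‖ ≤ C := by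
      rw [LinearIsometryEquiv.norm_map]
      exact R.opNorm_le_bound hC hR
    exact ((ContinuousLinearMap.adjoint R).le_opNorm v).trans
      (mul_le_mul_of_nonneg_right h1 (norm_nonneg _))
  · intro n v
    rw [ContinuousLinearMap.adjoint_inner_right, hRc]

/-- The alternating sum of rank one projections. -/
noncomputable def opA (c : ℕ → E) : E →L[ℂ] E :=
  ∑' n, ((-1 : ℂ) ^ n) • (innerSL ℂ (c n)).smulRight (c n)

theorem hasSum_opA (c : ℕ → E) (hc : Summable fun n => ‖c n‖ ^ 2) :
    HasSum (fun n => ((-1 : ℂ) ^ n) • (innerSL ℂ (c n)).smulRight (c n)) (opA c) := by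
  apply Summable.hasSum
  apply Summable.of_norm
  refine hc.of_nonneg_of_le (fun n => norm_nonneg _) ?_
  intro n
  rw [norm_smul, norm_pow, norm_neg, norm_one, one_pow, one_mul,
    ContinuousLinearMap.norm_smulRight_apply, innerSL_apply_norm, sq]

theorem hasSum_opA_apply (c : ℕ → E) (hc : Summable fun n => ‖c n‖ ^ 2) (x : E) :
    HasSum (fun n => ((-1 : ℂ) ^ n * ⟪c n, x⟫_ℂ) • c n) (opA c x) := by
  have := (hasSum_opA c hc).mapL (ContinuousLinearMap.apply ℂ E x)
  simpa [smul_smul] using this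

theorem hasSum_inner_opA (c : ℕ → E) (hc : Summable fun n => ‖c n‖ ^ 2) (x y : E) :
    HasSum (fun n => ((-1 : ℂ) ^ n * (⟪y, c n⟫_ℂ * ⟪c n, x⟫_ℂ))) ⟪y, opA c x⟫_ℂ := by
  have := (hasSum_opA_apply c hc x).mapL (innerSL ℂ y)
  simp only [innerSL_apply_apply, inner_smul_right] at this
  exact this.congr_fun (fun n => by ring)

theorem opA_symmetric (c : ℕ → E) (hc : Summable fun n => ‖c n‖ ^ 2) :
    (opA c : E →ₗ[ℂ] E).IsSymmetric := by
  intro x y
  simp only [ContinuousLinearMap.coe_coe]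
  have h1 := hasSum_inner_opA c hc y x
  have h2 := hasSum_inner_opA c hc x y
  have h3 := (Complex.hasSum_conj' ).2 h2
  rw [inner_conj_symm] at h3
  refine h3.unique ?_
  convert h1 using 1
  funext n
  simp only [map_mul, map_pow, map_neg, map_one, inner_conj_symm]
  ring

theorem hasSum_quad_opA (c : ℕ → E) (hc : Summable fun n => ‖c n‖ ^ 2) (x : E) :
    HasSum (fun n => ((-1 : ℝ) ^ n * ‖⟪c n, x⟫_ℂ‖ ^ 2)) (⟪x, opA c x⟫_ℂ).re := by
  have h1 := Complex.hasSum_re (hasSum_inner_opA c hc x x)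
  convert h1 using 1
  funext n
  rw [← inner_conj_symm x (c n), ← Complex.normSq_eq_conj_mul_self, Complex.normSq_eq_norm_sq]
  norm_cast

theorem opA_compact (c : ℕ → E) (hc : Summable fun n => ‖c n‖ ^ 2) :
    IsCompactOperator (opA c) := by
  have h := hasSum_opA c hc
  refine isCompactOperator_of_tendsto h (Filter.Eventually.of_forall ?_)
  intro s
  have h1 : ∀ n, ((-1 : ℂ) ^ n) • (innerSL ℂ (c n)).smulRight (c n) ∈
      compactOperator (RingHom.id ℂ) E E := by
    intro n
    apply Submodule.smul_mem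
    have h2 : IsCompactOperator (innerSL ℂ (c n)) :=
      isCompactOperator_of_locallyCompactSpace_dom (innerSL ℂ (c n))
    exact h2.clm_comp (ContinuousLinearMap.toSpanSingleton ℂ (c n))
  exact Submodule.sum_mem _ (fun n _ => h1 n)


theorem finite_large {ι : Type u} (c : ℕ → E) (hc : Summable fun n => ‖c n‖ ^ 2)
    (b : HilbertBasis ι ℂ E) (μ : ι → ℝ) (hb : ∀ i, opA c (b i) = (μ i : ℂ) • b i)
    (t : ℝ) (ht : 0 < t) : {i | t ≤ |μ i|}.Finite := by
  have h1 : Summable (fun p : ℕ × ι => ‖⟪c p.1, b p.2⟫_ℂ‖ ^ 2) := by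
    rw [summable_prod_of_nonneg (fun p => by positivity)]
    have h2 : ∀ n, HasSum (fun i => ‖⟪c n, b i⟫_ℂ‖ ^ 2) (‖c n‖ ^ 2) := by
      intro n
      refine (hasSum_normSq b (c n)).congr_fun (fun i => ?_)
      rw [norm_inner_symm]
    refine ⟨fun n => (h2 n).summable, ?_⟩
    simp only [fun n => (h2 n).tsum_eq]
    exact hc
  have h2 : Summable (fun i => ∑' n, ‖⟪c n, b i⟫_ℂ‖ ^ 2) := h1.prod_symm.prod
  have h3 : ∀ i, |μ i| ≤ ∑' n, ‖⟪c n, b i⟫_ℂ‖ ^ 2 := by
    intro i
    have h4 := hasSum_quad_opA c hc (b i)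
    have h5 : (⟪b i, opA c (b i)⟫_ℂ).re = μ i := by
      rw [hb i, inner_smul_right, inner_self_eq_norm_sq_to_K, b.orthonormal.norm_eq_one]
      simp
    rw [h5] at h4
    rw [← h4.tsum_eq, ← Real.norm_eq_abs]
    have h6 : Summable (fun n => ‖⟪c n, b i⟫_ℂ‖ ^ 2) := h1.prod_symm.prod_factor i
    refine (norm_tsum_le_tsum_norm ?_).trans_eq ?_
    · refine h6.congr (fun n => ?_)
      simp
    · congr 1
      funext n
      simp
  have h4 : Summable (fun i => |μ i|) := h2.of_nonneg_of_le (fun i => abs_nonneg _) h3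
  have h5 := h4.tendsto_cofinite_zero
  have h6 : ∀ᶠ i in Filter.cofinite, |μ i| < t := h5.eventually (gt_mem_nhds ht)
  rw [Filter.eventually_cofinite] at h6
  refine h6.subset ?_
  intro i hi
  have : t ≤ |μ i| := hi
  exact not_lt.2 this

theorem quad_shift (c : ℕ → E) (hc : Summable fun n => ‖c n‖ ^ 2) (T : E →L[ℂ] E)
    (hT : ∀ n v, ⟪c n, T v⟫_ℂ = ⟪c (n + 1), v⟫_ℂ) (v : E) :
    (⟪T v, opA c (T v)⟫_ℂ).re = ‖⟪c 0, v⟫_ℂ‖ ^ 2 - (⟪v, opA c v⟫_ℂ).re := by
  have h1 := hasSum_quad_opA c hc (T v)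
  have h2 := (hasSum_nat_add_iff' 1).2 (hasSum_quad_opA c hc v)
  simp only [Finset.range_one, Finset.sum_singleton, pow_zero, one_mul] at h2
  have h3 := h2.neg
  have h4 := h1.unique (h3.congr_fun (fun n => by rw [hT, pow_succ]; ring))
  rw [h4]; ring

theorem abstract_main (c : ℕ → E) (hc : Summable fun n => ‖c n‖ ^ 2) (q : ℝ) (hq0 : 0 < q)
    (hq1 : q < 1)
    (hshift : ∀ v : ℕ →₀ ℂ, ‖Finsupp.linearCombination ℂ (fun n => c (n + 1)) v‖ ^ 2 ≤
      q * ‖Finsupp.linearCombination ℂ c v‖ ^ 2)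
    (e : ℕ → E) (w : ℕ → ℂ) (hw : ∀ n, w n ≠ 0)
    (he : ∀ n k, ⟪c n, e k⟫_ℂ = if n = k then w k else 0) :
    ∃ lam : ℕ → ℝ, (∀ n, 0 < (-1 : ℝ) ^ n * lam n) ∧ StrictAnti (fun n => |lam n|) ∧
      Filter.Tendsto lam Filter.atTop (nhds 0) ∧
      (∀ μ : ℂ, μ ≠ 0 → (HasEigenvalue (opA c : Module.End ℂ E) μ ↔ ∃ n, μ = lam n)) ∧
      ∀ n, Module.finrank ℂ (maxGenEigenspace (opA c : Module.End ℂ E) (lam n : ℂ)) = 1 := by
  classical
  set A := opA c with hAdef
  have hA := opA_symmetric c hc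
  obtain ⟨ι, b, μ, hb⟩ := exists_eigenbasis A hA (opA_compact c hc)
  have hfin := finite_large c hc b μ hb
  -- shift
  obtain ⟨T, hTn, hTc⟩ := exists_shift c (Real.sqrt q) (fun v => by
    have h := hshift v
    rw [← Real.sqrt_sq (norm_nonneg (Finsupp.linearCombination ℂ (fun n => c (n + 1)) v)),
      ← Real.sqrt_sq (norm_nonneg (Finsupp.linearCombination ℂ c v)), ← Real.sqrt_mul hq0.le]
    exact Real.sqrt_le_sqrt h) (Real.sqrt_nonneg q)
  have hT2 : ∀ v, ‖(T : E →ₗ[ℂ] E) v‖ ^ 2 ≤ q * ‖v‖ ^ 2 := by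
    intro v
    have h1 := hTn v
    have h2 : ‖T v‖ ^ 2 ≤ (Real.sqrt q * ‖v‖) ^ 2 :=
      pow_le_pow_left₀ (norm_nonneg _) h1 2
    rw [mul_pow, Real.sq_sqrt hq0.le] at h2
    exact h2
  let Q : E → ℝ := fun v => (⟪v, A v⟫_ℂ).re
  have hQ : ∀ v, HasSum (fun i => μ i * ‖⟪b i, v⟫_ℂ‖ ^ 2) (Q v) := fun v =>
    hasSum_quad A hA b μ hb v
  have hQT : ∀ v, Q (T v) = ‖⟪c 0, v⟫_ℂ‖ ^ 2 - Q v := fun v => quad_shift c hc T hTc v
  have hfP : ∀ t : ℝ, 0 < t → {i | t ≤ μ i}.Finite := fun t ht =>
    (hfin t ht).subset (fun j hj => by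
      have h1 : t ≤ μ j := hj
      exact le_trans h1 (le_abs_self _))
  have hfM : ∀ t : ℝ, 0 < t → {i | μ i ≤ - t}.Finite := fun t ht =>
    (hfin t ht).subset (fun j hj => by
      have h1 : μ j ≤ - t := hj
      change t ≤ |μ j|
      rw [abs_of_neg (by linarith)]
      linarith)
  have hM : ∀ t : ℝ, 0 < t → {i | μ i ≤ - t}.ncard ≤ {i | t < μ i}.ncard := by
    intro t ht
    have htq : t < t / q := by
      rw [lt_div_iff₀ hq0]; nlinarith
    have h1 := card_le_of_form b μ Q hQ (T : E →ₗ[ℂ] E) q hq0 hT2 PEmpty 0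
      (fun v _ => by
        change - Q v ≤ Q (T v)
        rw [hQT]; have := sq_nonneg ‖⟪c 0, v⟫_ℂ‖; linarith) t ht
      (hfM t ht).toFinset (hfP (t / q) (ht.trans htq)).toFinset
      (fun i hi => by simpa using hi) (fun i hi => by simpa using hi)
    simp only [Fintype.card_pempty, add_zero] at h1
    rw [← Set.ncard_eq_toFinset_card _ (hfM t ht),
      ← Set.ncard_eq_toFinset_card _ (hfP (t / q) (ht.trans htq))] at h1
    refine h1.trans (Set.ncard_le_ncard ?_ ((hfP t ht).subset ?_))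
    · intro i hi
      have : t / q ≤ μ i := hi
      exact lt_of_lt_of_le htq this
    · intro i hi
      have : t < μ i := hi
      exact this.le
  have hP : ∀ t : ℝ, 0 < t → {i | t ≤ μ i}.ncard ≤ {i | μ i < - t}.ncard + 1 := by
    intro t ht
    have htq : t < t / q := by
      rw [lt_div_iff₀ hq0]; nlinarith
    have h1 := card_le_of_form b (fun i => - μ i) (fun v => - Q v)
      (fun v => by simpa only [neg_mul] using (hQ v).neg) (T : E →ₗ[ℂ] E) q hq0 hT2 Unit
      (LinearMap.pi (fun _ : Unit => (innerSL ℂ (c 0)).toLinearMap))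
      (fun v hv => by
        have h0 : ⟪c 0, v⟫_ℂ = 0 := by
          have := congrFun hv ()
          simpa using this
        change - (- Q v) ≤ - Q (T v)
        rw [hQT, h0]; simp) t ht
      (hfP t ht).toFinset (hfM (t / q) (ht.trans htq)).toFinset
      (fun i hi => by simpa using hi) (fun i hi => by
        simp only [Set.Finite.mem_toFinset]
        change μ i ≤ - (t / q)
        linarith)
    simp only [Fintype.card_unit] at h1
    rw [← Set.ncard_eq_toFinset_card _ (hfP t ht),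
      ← Set.ncard_eq_toFinset_card _ (hfM (t / q) (ht.trans htq))] at h1
    refine h1.trans (Nat.add_le_add_right (Set.ncard_le_ncard ?_ ((hfM t ht).subset ?_)) 1)
    · intro i hi
      have : μ i ≤ - (t / q) := hi
      change μ i < - t
      linarith
    · intro i hi
      have : μ i < - t := hi
      exact this.le
  have halt := fun i hi => alternate_of_counts μ hfin hM hP i hi
  -- coordinates of A x
  have hcoord : ∀ i x, ⟪b i, A x⟫_ℂ = μ i * ⟪b i, x⟫_ℂ := by
    intro i x
    have := hA (b i) x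
    simp only [ContinuousLinearMap.coe_coe] at this
    rw [← this, hb i, inner_smul_left, Complex.conj_ofReal]
  have hzero : ∀ x : E, (∀ i, ⟪b i, x⟫_ℂ = 0) → x = 0 := by
    intro x hx
    have h4 := hasSum_normSq b x
    simp only [hx, norm_zero, ne_eq, OfNat.ofNat_ne_zero, not_false_eq_true, zero_pow] at h4
    have h5 := h4.unique hasSum_zero
    simpa using h5
  have hAe : ∀ k, A (e k) = ((-1 : ℂ) ^ k * w k) • c k := by
    intro k
    have h1 := hasSum_opA_apply c hc (e k)
    have h2 : HasSum (fun n => ((-1 : ℂ) ^ n * ⟪c n, e k⟫_ℂ) • c n) (((-1 : ℂ) ^ k * w k) • c k) := by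
      have : (((-1 : ℂ) ^ k * w k) • c k) = ((-1 : ℂ) ^ k * ⟪c k, e k⟫_ℂ) • c k := by
        rw [he]; simp
      rw [this]
      apply hasSum_single k
      intro n hn
      rw [he, if_neg hn]; simp
    exact h1.unique h2
  have hrange : ∀ k, c k ∈ LinearMap.range (A : E →ₗ[ℂ] E) := by
    intro k
    refine ⟨((-1 : ℂ) ^ k * w k)⁻¹ • e k, ?_⟩
    have hne : ((-1 : ℂ) ^ k * w k) ≠ 0 := mul_ne_zero (pow_ne_zero _ (by norm_num)) (hw k)
    rw [map_smul]
    simp only [ContinuousLinearMap.coe_coe]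
    rw [hAe k, smul_smul, inv_mul_cancel₀ hne, one_smul]
  have hinf : {i | μ i ≠ 0}.Infinite := by
    intro hZ
    let Z := hZ.toFinset
    let N := Z.card
    let U : (Fin (N + 1) → ℂ) →ₗ[ℂ] E := Fintype.linearCombination ℂ (fun k : Fin (N + 1) => c k)
    let Φ : (Fin (N + 1) → ℂ) →ₗ[ℂ] (Z → ℂ) :=
      LinearMap.pi (fun j : Z => ((innerSL ℂ (b (j : ι))).toLinearMap ∘ₗ U))
    have hinj : Function.Injective Φ := by
      rw [← LinearMap.ker_eq_bot, LinearMap.ker_eq_bot']
      intro a ha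
      have hU : U a ∈ LinearMap.range (A : E →ₗ[ℂ] E) := by
        simp only [U, Fintype.linearCombination_apply]
        exact Submodule.sum_mem _ (fun k _ => Submodule.smul_mem _ _ (hrange k))
      obtain ⟨x, hx⟩ := hU
      have hU0 : U a = 0 := by
        apply hzero
        intro i
        by_cases hi : μ i = 0
        · rw [← hx]
          simp only [ContinuousLinearMap.coe_coe]
          rw [hcoord, hi]; simp
        · have := congrFun ha ⟨i, by simpa [Z] using hi⟩
          simpa [Φ] using this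
      funext k
      have h1 : ⟪U a, e k⟫_ℂ = (starRingEnd ℂ) (a k) * w k := by
        simp only [U, Fintype.linearCombination_apply, sum_inner, inner_smul_left, he]
        rw [Finset.sum_eq_single k]
        · simp
        · intro j _ hj
          have : (j : ℕ) ≠ k := fun h => hj (Fin.ext h)
          simp [this]
        · simp
      rw [hU0, inner_zero_left] at h1
      rcases mul_eq_zero.1 h1.symm with h2 | h2
      · simpa using h2
      · exact absurd h2 (hw k)
    have := LinearMap.finrank_le_finrank_of_injective hinj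
    simp [N] at this
  obtain ⟨lam, σ, hσ, hσs, hsign, hanti, htend⟩ := enumerate μ hfin hinf halt
  have hlam0 : ∀ n, lam n ≠ 0 := by
    intro n h0
    have := hsign n
    rw [h0, mul_zero] at this
    exact lt_irrefl _ this
  refine ⟨lam, hsign, hanti, htend, ?_, ?_⟩
  · intro ν hν
    constructor
    · intro hev
      obtain ⟨v, hv⟩ := hev.exists_hasEigenvector
      have hAv : A v = ν • v := hv.apply_eq_smul
      have : ∃ i, ⟪b i, v⟫_ℂ ≠ 0 := by
        by_contra hcon
        push Not at hcon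
        exact hv.2 (hzero v hcon)
      obtain ⟨i, hi⟩ := this
      have h1 := hcoord i v
      rw [hAv, inner_smul_right] at h1
      have h2 : ν = μ i := mul_right_cancel₀ hi h1
      have h3 : μ i ≠ 0 := by
        intro h; apply hν; rw [h2, h]; simp
      obtain ⟨n, hn⟩ := hσs i h3
      exact ⟨n, by rw [h2, ← hσ n, hn]⟩
    · rintro ⟨n, rfl⟩
      apply hasEigenvalue_of_hasEigenvector (x := b (σ n))
      refine ⟨?_, b.orthonormal.ne_zero _⟩
      rw [mem_eigenspace_iff, ← hσ n]
      exact hb (σ n)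
  · intro n
    rw [hA.isFinitelySemisimple.maxGenEigenspace_eq_eigenspace]
    have hspan : eigenspace (A : Module.End ℂ E) (lam n : ℂ) = Submodule.span ℂ {b (σ n)} := by
      apply le_antisymm
      · intro v hv
        rw [mem_eigenspace_iff] at hv
        rw [Submodule.mem_span_singleton]
        refine ⟨⟪b (σ n), v⟫_ℂ, ?_⟩
        rw [← sub_eq_zero]
        apply hzero
        intro i
        rw [inner_sub_right, inner_smul_right]
        by_cases hi : i = σ n
        · subst hi
          rw [inner_self_eq_norm_sq_to_K, b.orthonormal.norm_eq_one]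
          simp
        · rw [b.orthonormal.2 hi, mul_zero, zero_sub, neg_eq_zero]
          have h1 := hcoord i v
          have hv' : A v = (lam n : ℂ) • v := hv
          rw [hv', inner_smul_right] at h1
          have h2 : ((lam n : ℂ) - μ i) * ⟪b i, v⟫_ℂ = 0 := by rw [sub_mul, h1]; ring
          rcases mul_eq_zero.1 h2 with h3 | h3
          · exfalso
            apply hi
            have h4 : (lam n : ℂ) = μ i := sub_eq_zero.1 h3
            have h5 : lam n = μ i := by exact_mod_cast h4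
            have h6 : μ (σ n) ≠ 0 := by rw [hσ]; exact hlam0 n
            exact (halt (σ n) h6).1 i (by rw [hσ, h5])
          · exact h3
      · rw [Submodule.span_singleton_le_iff_mem, mem_eigenspace_iff, ← hσ n]
        exact hb (σ n)
    rw [hspan]
    exact finrank_span_singleton (b.orthonormal.ne_zero _)

end Pool.Agent.Helper46.GKW
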