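import Mathlib

namespace Pool.Agent.Helper46.GKW

/-- The closed disc `|x - 1| ≤ 3/2`. -/
def disc : Set ℂ := Metric.closedBall 1 (3 / 2)

/-- The open disc `|x - 1| < 3/2`. -/
def openDisc : Set ℂ := Metric.ball 1 (3 / 2)

/-- `f` is an element of the space `V`: it is continuous on the closed disc `|x - 1| ≤ 3/2` and
analytic in the open disc. A function on the closed disc is identified with its extension by `0`
to `ℂ`. -/
def IsV (f : ℂ → ℂ) : Prop :=
  ContinuousOn f disc ∧ DifferentiableOn ℂ f openDisc ∧ ∀ x, x ∉ disc → f x = 0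

open scoped Classical in
/-- The Gauss-Kuzmin-Wirsing operator: `gkwOp f x = ∑_{m ≥ 1} (x + m)⁻² f(1 / (x + m))` for `x` in
the closed disc (with the summation index shifted by one), extended by `0`. -/
noncomputable def gkwOp (f : ℂ → ℂ) (x : ℂ) : ℂ :=
  if x ∈ disc then ∑' m : ℕ, 1 / (x + (m + 1)) ^ 2 * f (1 / (x + (m + 1))) else 0

end Pool.Agent.Helper46.GKW
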