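import Mathlib

open Polynomial

namespace Pool.Agent.Helper46.GKW

/-- The affine polynomial fixing `1` with slope `r`. -/
noncomputable def aff {R : Type*} [CommRing R] (r : R) : R[X] := C (1 - r) + C r * X

theorem coeff_aff_pow {R : Type*} [CommRing R] (r : R) (n i : ℕ) :
    ((aff r) ^ n).coeff i = (n.choose i : R) * (1 - r) ^ (n - i) * r ^ i := by
  rw [aff, add_comm, add_pow, finsetSum_coeff]
  have h : ∀ m ∈ Finset.range (n + 1), ((C r * X) ^ m * C (1 - r) ^ (n - m) *
      ((n.choose m : ℕ) : R[X])).coeff i =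
      if m = i then (n.choose i : R) * (1 - r) ^ (n - i) * r ^ i else 0 := by
    intro m _
    rw [mul_pow, ← C_pow, ← C_pow, mul_assoc, mul_assoc, coeff_C_mul, ← C_eq_natCast, ← C_mul,
      mul_comm (X ^ m), coeff_C_mul, coeff_X_pow]
    by_cases hm : m = i
    · subst hm; simp; ring
    · rw [if_neg (fun h => hm h.symm), if_neg hm]; simp
  rw [Finset.sum_congr rfl h, Finset.sum_ite_eq']
  by_cases hi : i ∈ Finset.range (n + 1)
  · rw [if_pos hi]
  · rw [if_neg hi]
    have : n < i := by simpa using hi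
    rw [Nat.choose_eq_zero_of_lt this]; simp

theorem coeff_comp_aff {R : Type*} [CommRing R] (r : R) (h : R[X]) (N : ℕ) (hN : h.natDegree < N)
    (i : ℕ) : (h.comp (aff r)).coeff i =
      ∑ n ∈ Finset.range N, h.coeff n * ((n.choose i : R) * (1 - r) ^ (n - i) * r ^ i) := by
  rw [comp_eq_sum_left, sum_over_range' h (by intro n; simp) N hN, finsetSum_coeff]
  refine Finset.sum_congr rfl (fun n _ => ?_)
  rw [coeff_C_mul, coeff_aff_pow]

/-- Sums for the negative binomial weights. -/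
theorem hasSum_b0 (a : ℝ) (ha : |a| < 1) (i : ℕ) :
    HasSum (fun l : ℕ => ((l + i).choose i : ℝ) * a ^ l) (1 / (1 - a) ^ (i + 1)) :=
  hasSum_choose_mul_geometric_of_norm_lt_one i (by simpa using ha)

theorem hasSum_b1 (a : ℝ) (ha : |a| < 1) (i : ℕ) :
    HasSum (fun l : ℕ => (l : ℝ) * (((l + i).choose i : ℝ) * a ^ l))
      ((i + 1) * a / (1 - a) ^ (i + 2)) := by
  rw [← hasSum_nat_add_iff' 1]
  simp only [Finset.range_one, Finset.sum_singleton, Nat.cast_zero, zero_mul, sub_zero]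
  have h := (hasSum_b0 a ha (i + 1)).mul_left ((i + 1 : ℝ) * a)
  have e : (i + 1 : ℝ) * a * (1 / (1 - a) ^ (i + 1 + 1)) = (i + 1) * a / (1 - a) ^ (i + 2) := by
    ring
  rw [e] at h
  refine h.congr_fun (fun l => ?_)
  have hc : (l + 1) * ((l + 1 + i).choose i) = (i + 1) * ((l + (i + 1)).choose (i + 1)) := by
    have h1 := Nat.choose_succ_right_eq (l + 1 + i) i
    have h2 : l + 1 + i - i = l + 1 := by omega
    rw [h2] at h1
    have h3 : l + (i + 1) = l + 1 + i := by omega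
    rw [h3]
    linarith
  have hc' : ((l + 1 : ℕ) : ℝ) * ((l + 1 + i).choose i : ℝ) =
      (i + 1) * ((l + (i + 1)).choose (i + 1) : ℝ) := by exact_mod_cast hc
  calc ((l + 1 : ℕ) : ℝ) * (((l + 1 + i).choose i : ℝ) * a ^ (l + 1))
      = (((l + 1 : ℕ) : ℝ) * ((l + 1 + i).choose i : ℝ)) * (a ^ l * a) := by rw [pow_succ]; ring
    _ = _ := by rw [hc']; ring

theorem hasSum_b2 (a : ℝ) (ha : |a| < 1) (i : ℕ) :
    HasSum (fun l : ℕ => (l : ℝ) * ((l : ℝ) - 1) * (((l + i).choose i : ℝ) * a ^ l))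
      ((i + 1) * (i + 2) * a ^ 2 / (1 - a) ^ (i + 3)) := by
  rw [← hasSum_nat_add_iff' 1]
  simp only [Finset.range_one, Finset.sum_singleton, Nat.cast_zero, zero_mul, sub_zero]
  have h := (hasSum_b1 a ha (i + 1)).mul_left ((i + 1 : ℝ) * a)
  have e : (i + 1 : ℝ) * a * (((i + 1 : ℕ) + 1) * a / (1 - a) ^ (i + 1 + 2)) =
      (i + 1) * (i + 2) * a ^ 2 / (1 - a) ^ (i + 3) := by
    push_cast
    ring
  rw [e] at h
  refine h.congr_fun (fun l => ?_)
  have hc : (l + 1) * ((l + 1 + i).choose i) = (i + 1) * ((l + (i + 1)).choose (i + 1)) := by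
    have h1 := Nat.choose_succ_right_eq (l + 1 + i) i
    have h2 : l + 1 + i - i = l + 1 := by omega
    rw [h2] at h1
    have h3 : l + (i + 1) = l + 1 + i := by omega
    rw [h3]
    linarith
  have hc' : ((l + 1 : ℕ) : ℝ) * ((l + 1 + i).choose i : ℝ) =
      (i + 1) * ((l + (i + 1)).choose (i + 1) : ℝ) := by exact_mod_cast hc
  calc ((l + 1 : ℕ) : ℝ) * (((l + 1 : ℕ) : ℝ) - 1) * (((l + 1 + i).choose i : ℝ) * a ^ (l + 1))
      = (((l + 1 : ℕ) : ℝ) * ((l + 1 + i).choose i : ℝ)) * ((((l + 1 : ℕ) : ℝ) - 1) * (a ^ l * a)) := by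
        rw [pow_succ]; ring
    _ = _ := by rw [hc']; push_cast; ring


/-- Binomial weights. -/
noncomputable def bw (σ : ℝ) (n i : ℕ) : ℝ := (n.choose i : ℝ) * (1 - σ) ^ (n - i) * σ ^ i

theorem bw_nonneg (σ : ℝ) (h0 : 0 ≤ σ) (h1 : σ ≤ 1) (n i : ℕ) : 0 ≤ bw σ n i := by
  unfold bw
  have : 0 ≤ 1 - σ := by linarith
  positivity

theorem bw_eq_zero (σ : ℝ) (n i : ℕ) (h : n < i) : bw σ n i = 0 := by
  unfold bw
  rw [Nat.choose_eq_zero_of_lt h]; simp

theorem sum_bw (σ : ℝ) (n N : ℕ) (hN : n < N) : ∑ i ∈ Finset.range N, bw σ n i = 1 := by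
  have h1 : ∑ i ∈ Finset.range (n + 1), bw σ n i = 1 := by
    have := add_pow σ (1 - σ) n
    rw [show σ + (1 - σ) = 1 by ring, one_pow] at this
    rw [this]
    refine Finset.sum_congr rfl (fun i _ => ?_)
    unfold bw; ring
  rw [← h1]
  symm
  apply Finset.sum_subset
  · intro i hi
    simp only [Finset.mem_range] at hi ⊢
    omega
  · intro i _ hi
    apply bw_eq_zero
    simp only [Finset.mem_range] at hi
    omega

theorem bw_shift (σ : ℝ) (h0 : σ ≠ 0) (n i : ℕ) :
    ((n : ℝ) - i) * bw σ n i = (i + 1) * ((1 - σ) / σ) * bw σ n (i + 1) := by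
  rcases lt_or_ge n i with h | h
  · rw [bw_eq_zero σ n i h, bw_eq_zero σ n (i + 1) (by omega)]; simp
  rcases eq_or_lt_of_le h with h | h
  · subst h
    rw [bw_eq_zero σ i (i + 1) (by omega)]; simp
  · unfold bw
    have h1 := Nat.choose_succ_right_eq n i
    have h2 : ((n.choose (i + 1) : ℕ) : ℝ) * (i + 1) = (n.choose i : ℝ) * ((n : ℝ) - i) := by
      have := congrArg (fun x : ℕ => (x : ℝ)) h1
      push_cast [Nat.cast_sub h.le] at this
      exact this
    have h3 : n - i = (n - (i + 1)) + 1 := by omega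
    rw [h3, pow_succ, pow_succ]
    field_simp
    linear_combination (-(1 - σ) * (1 - σ) ^ (n - (i + 1))) * h2

theorem pointwise (σ : ℝ) (h0 : 0 < σ) (h1 : σ < 1) (h : ℕ → ℝ) (N i : ℕ) :
    σ * (∑ n ∈ Finset.range N, h n * bw σ n i) ^ 2 + σ * (1 - σ) * (i + 1) *
      (∑ n ∈ Finset.range N, h n * bw σ n i - ∑ n ∈ Finset.range N, h n * bw σ n (i + 1)) ^ 2 ≤
    ∑ n ∈ Finset.range N, bw σ n i * h n ^ 2 := by
  classical
  set k : ℕ → ℝ := fun i => ∑ n ∈ Finset.range N, h n * bw σ n i with hk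
  set K2 : ℝ := ∑ n ∈ Finset.range N, bw σ n i * h n ^ 2 with hK2
  change σ * (k i) ^ 2 + σ * (1 - σ) * (i + 1) * (k i - k (i + 1)) ^ 2 ≤ K2
  set a := 1 - σ with ha
  have habs : |a| < 1 := by rw [abs_lt]; constructor <;> linarith
  have h1a : 1 - a = σ := by rw [ha]; ring
  let h' : ℕ → ℝ := fun n => if n < N then h n else 0
  let b : ℕ → ℝ := fun l => bw σ (l + i) i
  have hbeq : ∀ l, b l = σ ^ i * (((l + i).choose i : ℝ) * a ^ l) := by
    intro l
    simp only [b, bw, Nat.add_sub_cancel]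
    ring
  have S0 : HasSum b (1 / σ) := by
    have := (hasSum_b0 a habs i).mul_left (σ ^ i)
    rw [h1a] at this
    have e : σ ^ i * (1 / σ ^ (i + 1)) = 1 / σ := by rw [pow_succ]; field_simp
    rw [e] at this
    exact this.congr_fun hbeq
  have S1 : HasSum (fun l : ℕ => (l : ℝ) * b l) ((i + 1) * a / σ ^ 2) := by
    have := (hasSum_b1 a habs i).mul_left (σ ^ i)
    rw [h1a] at this
    have e : σ ^ i * ((i + 1) * a / σ ^ (i + 2)) = (i + 1) * a / σ ^ 2 := by
      rw [pow_add]; field_simp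
    rw [e] at this
    exact this.congr_fun (fun l => by rw [hbeq]; ring)
  have S2 : HasSum (fun l : ℕ => (l : ℝ) * ((l : ℝ) - 1) * b l)
      ((i + 1) * (i + 2) * a ^ 2 / σ ^ 3) := by
    have := (hasSum_b2 a habs i).mul_left (σ ^ i)
    rw [h1a] at this
    have e : σ ^ i * ((i + 1) * (i + 2) * a ^ 2 / σ ^ (i + 3)) =
        (i + 1) * (i + 2) * a ^ 2 / σ ^ 3 := by
      rw [pow_add]; field_simp
    rw [e] at this
    exact this.congr_fun (fun l => by rw [hbeq]; ring)
  -- generic finite sums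
  have fin : ∀ f : ℕ → ℝ, (∀ n, N ≤ n → f n = 0) → (∀ n, n < i → f n = 0) →
      HasSum (fun l => f (l + i)) (∑ n ∈ Finset.range N, f n) := by
    intro f hf1 hf2
    have hs : HasSum f (∑ n ∈ Finset.range N, f n) :=
      hasSum_sum_of_ne_finset_zero (fun n hn => hf1 n (by simpa using hn))
    have := (hasSum_nat_add_iff' i).2 hs
    have hz : ∑ n ∈ Finset.range i, f n = 0 :=
      Finset.sum_eq_zero (fun n hn => hf2 n (by simpa using hn))
    rwa [hz, sub_zero] at this
  have hh' : ∀ n ∈ Finset.range N, h' n = h n := by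
    intro n hn
    simp only [Finset.mem_range] at hn
    simp [h', hn]
  have hh0 : ∀ n, N ≤ n → h' n = 0 := by
    intro n hn
    simp [h', not_lt.2 hn]
  have T0 : HasSum (fun l => b l * h' (l + i)) (k i) := by
    have := fin (fun n => bw σ n i * h' n) (fun n hn => by simp [hh0 n hn])
      (fun n hn => by simp [bw_eq_zero σ n i hn])
    convert this using 1
    refine Finset.sum_congr rfl (fun n hn => ?_)
    rw [hh' n hn]; ring
  have T2 : HasSum (fun l => b l * h' (l + i) ^ 2) K2 := by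
    have := fin (fun n => bw σ n i * h' n ^ 2) (fun n hn => by simp [hh0 n hn])
      (fun n hn => by simp [bw_eq_zero σ n i hn])
    convert this using 1
    refine Finset.sum_congr rfl (fun n hn => ?_)
    rw [hh' n hn]
  have T1 : HasSum (fun l : ℕ => (l : ℝ) * b l * h' (l + i)) ((i + 1) * (a / σ) * k (i + 1)) := by
    have := fin (fun n => ((n : ℝ) - i) * bw σ n i * h' n) (fun n hn => by simp [hh0 n hn])
      (fun n hn => by simp [bw_eq_zero σ n i hn])
    convert this using 1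
    · funext l
      simp only [b]
      push_cast; ring
    · rw [hk, Finset.mul_sum]
      refine Finset.sum_congr rfl (fun n hn => ?_)
      rw [hh' n hn, bw_shift σ h0.ne' n i]; ring
  set d := k i - k (i + 1) with hd
  set x := σ * k i + σ * a * (i + 1) * d with hx
  set y := - σ ^ 2 * d with hy
  have big : HasSum (fun l : ℕ => b l * (h' (l + i) - x - y * l) ^ 2)
      (K2 - 2 * x * k i - 2 * y * ((i + 1) * (a / σ) * k (i + 1)) + x ^ 2 * (1 / σ) +
        (2 * x * y + y ^ 2) * ((i + 1) * a / σ ^ 2) + y ^ 2 *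
          ((i + 1) * (i + 2) * a ^ 2 / σ ^ 3)) := by
    have := ((((T2.sub (T0.mul_left (2 * x))).sub (T1.mul_left (2 * y))).add
      (S0.mul_left (x ^ 2))).add (S1.mul_left (2 * x * y + y ^ 2))).add (S2.mul_left (y ^ 2))
    exact this.congr_fun (fun l => by ring)
  have hnn := big.nonneg (fun l => mul_nonneg (bw_nonneg σ h0.le h1.le _ _) (sq_nonneg _))
  have key : K2 - 2 * x * k i - 2 * y * ((i + 1) * (a / σ) * k (i + 1)) + x ^ 2 * (1 / σ) +
        (2 * x * y + y ^ 2) * ((i + 1) * a / σ ^ 2) + y ^ 2 *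
          ((i + 1) * (i + 2) * a ^ 2 / σ ^ 3) =
        K2 - (σ * (k i) ^ 2 + σ * a * (i + 1) * d ^ 2) := by
    rw [hx, hy]
    have hk1 : k (i + 1) = k i - d := by rw [hd]; ring
    rw [hk1, ha]
    field_simp
    ring
  rw [key] at hnn
  linarith

end Pool.Agent.Helper46.GKW
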