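import Mathlib
import Pool.Agent.Helper46.GKW.Ineq1

open Polynomial

namespace Pool.Agent.Helper46.GKW

noncomputable def rho (H : ℝ) (m : ℕ) : ℝ := H / (H + m)

theorem rho_pos (H : ℝ) (hH : 0 < H) (m : ℕ) : 0 < rho H m := by
  unfold rho; positivity

theorem rho_le_one (H : ℝ) (hH : 0 < H) (m : ℕ) : rho H m ≤ 1 := by
  unfold rho
  rw [div_le_one (by positivity)]
  have : (0 : ℝ) ≤ m := Nat.cast_nonneg m
  linarith

theorem rho_zero (H : ℝ) (hH : 0 < H) : rho H 0 = 1 := by
  unfold rho
  simp [hH.ne']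

theorem aff_comp {R : Type*} [CommRing R] (r s : R) : (aff r).comp (aff s) = aff (r * s) := by
  unfold aff
  simp only [add_comp, mul_comp, C_comp, X_comp, C_sub, C_1, C_mul, sub_comp, one_comp]
  ring

/-- The operator `p - (1 - X) p'`. -/
noncomputable def gop (p : ℝ[X]) : ℝ[X] := p - (1 - X) * derivative p

theorem coeff_gop (p : ℝ[X]) (i : ℕ) :
    (gop p).coeff i = (i + 1) * (p.coeff i - p.coeff (i + 1)) := by
  unfold gop
  rw [sub_mul, one_mul, coeff_sub, coeff_sub, coeff_derivative]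
  cases i with
  | zero => simp
  | succ j =>
    rw [coeff_X_mul, coeff_derivative]
    push_cast
    ring

theorem gop_comp (p : ℝ[X]) (r : ℝ) :
    gop (C r * p.comp (aff r)) = C r * (gop p).comp (aff r) := by
  unfold gop
  rw [derivative_C_mul, derivative_comp]
  have : derivative (aff r) = C r := by
    unfold aff
    simp
  rw [this]
  simp only [sub_comp, mul_comp, one_comp, X_comp]
  unfold aff
  simp only [C_sub, C_1]
  ring

theorem natDegree_comp_aff (p : ℝ[X]) (r : ℝ) (N : ℕ) (hN : p.natDegree < N) :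
    (p.comp (aff r)).natDegree < N := by
  refine lt_of_le_of_lt ?_ hN
  refine natDegree_comp_le.trans ?_
  have : (aff r).natDegree ≤ 1 := by
    unfold aff
    refine (natDegree_add_le _ _).trans ?_
    simp only [natDegree_C]
    refine max_le (by omega) ?_
    exact natDegree_C_mul_le _ _ |>.trans natDegree_X_le
  calc p.natDegree * (aff r).natDegree ≤ p.natDegree * 1 := Nat.mul_le_mul_left _ this
    _ = p.natDegree := by ring

theorem one_step (σ : ℝ) (h0 : 0 < σ) (h1 : σ < 1) (p : ℝ[X]) (N : ℕ) (hN : p.natDegree < N) :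
    σ * ∑ i ∈ Finset.range N, ((p.comp (aff σ)).coeff i) ^ 2 +
    σ * (1 - σ) * ∑ i ∈ Finset.range N, ((gop (p.comp (aff σ))).coeff i) ^ 2 / (i + 1) ≤
    ∑ i ∈ Finset.range N, (p.coeff i) ^ 2 := by
  have hk : ∀ i, (p.comp (aff σ)).coeff i = ∑ n ∈ Finset.range N, p.coeff n * bw σ n i := by
    intro i
    rw [coeff_comp_aff σ p N hN i]
    rfl
  have hg : ∀ i : ℕ, ((gop (p.comp (aff σ))).coeff i) ^ 2 / (i + 1) =
      (i + 1) * ((p.comp (aff σ)).coeff i - (p.comp (aff σ)).coeff (i + 1)) ^ 2 := by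
    intro i
    rw [coeff_gop]
    have : (i + 1 : ℝ) ≠ 0 := by positivity
    field_simp
  have hsum : ∑ i ∈ Finset.range N, ∑ n ∈ Finset.range N, bw σ n i * p.coeff n ^ 2 =
      ∑ i ∈ Finset.range N, (p.coeff i) ^ 2 := by
    rw [Finset.sum_comm]
    refine Finset.sum_congr rfl (fun n hn => ?_)
    rw [← Finset.sum_mul, sum_bw σ n N (by simpa using hn), one_mul]
  rw [← hsum, Finset.mul_sum, Finset.mul_sum, ← Finset.sum_add_distrib]
  refine Finset.sum_le_sum (fun i _ => ?_)
  rw [hg]
  have := pointwise σ h0 h1 (fun n => p.coeff n) N i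
  simp only [← hk] at this
  linarith

/-- The starting polynomial. -/
noncomputable def hzero (n : ℕ) : ℝ[X] :=
  C (1 / ((n : ℝ) + 1)) * ∑ l ∈ Finset.range (n + 1), X ^ l

theorem coeff_hzero (n i : ℕ) : (hzero n).coeff i = if i < n + 1 then 1 / ((n : ℝ) + 1) else 0 := by
  unfold hzero
  rw [coeff_C_mul, finsetSum_coeff]
  simp only [coeff_X_pow]
  rw [Finset.sum_ite_eq]
  simp only [Finset.mem_range]
  split_ifs <;> simp

theorem natDegree_hzero (n : ℕ) : (hzero n).natDegree < n + 1 := by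
  rw [Nat.lt_succ_iff, natDegree_le_iff_coeff_eq_zero]
  intro i hi
  rw [coeff_hzero, if_neg (by omega)]

theorem gop_hzero (n : ℕ) : gop (hzero n) = X ^ n := by
  ext i
  rw [coeff_gop, coeff_hzero, coeff_hzero, coeff_X_pow]
  rcases lt_trichotomy i n with h | h | h
  · rw [if_pos (by omega), if_pos (by omega), if_neg (by omega)]; simp
  · subst h
    rw [if_pos (by omega), if_neg (by omega), if_pos rfl]
    have : (i + 1 : ℝ) ≠ 0 := by positivity
    field_simp
    ring
  · rw [if_neg (by omega), if_neg (by omega), if_neg (by omega)]; simp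

theorem telescoping (H : ℝ) (hH : 0 < H) (n M : ℕ) :
    ∑ m ∈ Finset.range M, ∑ i ∈ Finset.range (n + 1),
      (rho H (m + 1) * bw (rho H (m + 1)) n i) ^ 2 / (i + 1) ≤ H / (n + 1) := by
  set N := n + 1 with hN
  let P : ℕ → ℝ[X] := fun m => C (rho H m) * (hzero n).comp (aff (rho H m))
  let L2 : ℝ[X] → ℝ := fun p => ∑ i ∈ Finset.range N, (p.coeff i) ^ 2
  let Bg : ℝ[X] → ℝ := fun p => ∑ i ∈ Finset.range N, (p.coeff i) ^ 2 / (i + 1)
  have hL2 : ∀ (r : ℝ) (p : ℝ[X]), L2 (C r * p) = r ^ 2 * L2 p := by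
    intro r p
    simp only [L2, coeff_C_mul, mul_pow, Finset.mul_sum]
  have hBg : ∀ (r : ℝ) (p : ℝ[X]), Bg (C r * p) = r ^ 2 * Bg p := by
    intro r p
    simp only [Bg, coeff_C_mul, mul_pow, Finset.mul_sum, mul_div_assoc]
  have hgC : ∀ (r : ℝ) (p : ℝ[X]), gop (C r * p) = C r * gop p := by
    intro r p
    unfold gop
    rw [derivative_C_mul]; ring
  have hgP : ∀ m, gop (P m) = C (rho H m) * (aff (rho H m)) ^ n := by
    intro m
    simp only [P]
    rw [gop_comp, gop_hzero, pow_comp, X_comp]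
  have hBgP : ∀ m, Bg (gop (P m)) = ∑ i ∈ Finset.range N,
      (rho H m * bw (rho H m) n i) ^ 2 / (i + 1) := by
    intro m
    rw [hgP]
    simp only [Bg, coeff_C_mul, coeff_aff_pow]
    rfl
  have hPdeg : ∀ m, (P m).natDegree < N := by
    intro m
    refine lt_of_le_of_lt (natDegree_C_mul_le _ _) ?_
    exact natDegree_comp_aff _ _ _ (natDegree_hzero n)
  have step : ∀ m : ℕ, Bg (gop (P (m + 1))) ≤
      (H + m) * L2 (P m) - (H + (m + 1 : ℕ)) * L2 (P (m + 1)) := by
    intro m
    set σ := rho H (m + 1) / rho H m with hσ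
    have hm : (0 : ℝ) ≤ m := Nat.cast_nonneg m
    have hσeq : σ = (H + m) / (H + m + 1) := by
      rw [hσ]; unfold rho
      push_cast
      have h1 : H + m ≠ 0 := by positivity
      have h2 : H + (m + 1) ≠ 0 := by positivity
      have h3 : H + m + 1 ≠ 0 := by positivity
      field_simp
      ring
    have hσ0 : 0 < σ := by rw [hσeq]; positivity
    have hσ1 : σ < 1 := by
      rw [hσeq, div_lt_one (by positivity)]; linarith
    have hPs : P (m + 1) = C σ * (P m).comp (aff σ) := by
      simp only [P]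
      rw [mul_comp, C_comp, comp_assoc, aff_comp, ← mul_assoc, ← C_mul]
      have hr : rho H m ≠ 0 := (rho_pos H hH m).ne'
      have e1 : rho H m * σ = rho H (m + 1) := by rw [hσ]; field_simp
      have e2 : σ * rho H m = rho H (m + 1) := by rw [mul_comm]; exact e1
      rw [e1, e2]
    have h1 := one_step σ hσ0 hσ1 (P m) N (hPdeg m)
    have h2 : L2 (P (m + 1)) = σ ^ 2 * L2 ((P m).comp (aff σ)) := by rw [hPs, hL2]
    have h3 : Bg (gop (P (m + 1))) = σ ^ 2 * Bg (gop ((P m).comp (aff σ))) := by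
      rw [hPs, hgC, hBg]
    change σ * L2 ((P m).comp (aff σ)) + σ * (1 - σ) * Bg (gop ((P m).comp (aff σ))) ≤
      L2 (P m) at h1
    rw [h2, h3]
    have h4 : 1 - σ = 1 / (H + m + 1) := by
      rw [hσeq]; field_simp; ring
    have h5 : (H + m) = σ * (H + m + 1) := by
      rw [hσeq]; field_simp
    have hpos : 0 < H + m + 1 := by positivity
    rw [h4] at h1
    push_cast
    have h6 : σ * (H + m + 1) * (σ * L2 ((P m).comp (aff σ)) + σ * (1 / (H + m + 1)) *
        Bg (gop ((P m).comp (aff σ)))) ≤ σ * (H + m + 1) * L2 (P m) :=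
      mul_le_mul_of_nonneg_left h1 (by positivity)
    have h7 : σ * (H + m + 1) * (σ * L2 ((P m).comp (aff σ)) + σ * (1 / (H + m + 1)) *
        Bg (gop ((P m).comp (aff σ)))) = (H + (m + 1)) * (σ ^ 2 * L2 ((P m).comp (aff σ))) +
          σ ^ 2 * Bg (gop ((P m).comp (aff σ))) := by
      field_simp
      ring
    rw [h7, ← h5] at h6
    linarith
  have tele : ∀ M : ℕ, ∑ m ∈ Finset.range M, Bg (gop (P (m + 1))) ≤
      H * L2 (P 0) - (H + M) * L2 (P M) := by
    intro M
    induction M with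
    | zero => simp
    | succ M ih =>
      rw [Finset.sum_range_succ]
      have := step M
      linarith
  have hL2nn : ∀ p, 0 ≤ L2 p := fun p => Finset.sum_nonneg (fun i _ => sq_nonneg _)
  have hP0 : L2 (P 0) = 1 / (n + 1) := by
    have : P 0 = hzero n := by
      simp only [P]
      rw [rho_zero H hH]
      have : aff (1 : ℝ) = X := by unfold aff; simp
      rw [this]; simp
    rw [this]
    simp only [L2, coeff_hzero]
    rw [Finset.sum_congr rfl (fun i hi => by
      rw [if_pos (by simpa [hN] using hi)])]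
    rw [Finset.sum_const, Finset.card_range, hN]
    simp only [nsmul_eq_mul]
    push_cast
    have : (n + 1 : ℝ) ≠ 0 := by positivity
    field_simp
  have h8 := tele M
  simp only [hBgP] at h8
  rw [hP0] at h8
  have h9 : 0 ≤ (H + M) * L2 (P M) := mul_nonneg (by positivity) (hL2nn _)
  calc _ ≤ H * (1 / (n + 1)) - (H + M) * L2 (P M) := h8
    _ ≤ H / (n + 1) := by rw [mul_one_div]; linarith

end Pool.Agent.Helper46.GKW
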