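import Mathlib
import Pool.Agent.Helper46.GKW.Ineq2

open Polynomial
open scoped ENNReal

namespace Pool.Agent.Helper46.GKW

/-- `ℓ²(ℕ)` -/
abbrev GG : Type := lp (fun _ : ℕ => ℂ) 2
/-- `ℓ²(ℕ, ℓ²(ℕ))` -/
abbrev HH : Type := lp (fun _ : ℕ => GG) 2

theorem lp_hasSum_sq {E : ℕ → Type} [∀ i, NormedAddCommGroup (E i)] (x : lp E 2) :
    HasSum (fun i => ‖x i‖ ^ 2) (‖x‖ ^ 2) := by
  have h := lp.hasSum_norm (p := 2) (by norm_num) x
  have h2 : (2 : ℝ≥0∞).toReal = ((2 : ℕ) : ℝ) := by norm_num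
  simp only [h2, Real.rpow_natCast] at h
  exact h

theorem memlp_of_summable {E : ℕ → Type} [∀ i, NormedAddCommGroup (E i)] (f : ∀ i, E i)
    (hf : Summable fun i => ‖f i‖ ^ 2) : Memℓp f 2 := by
  apply memℓp_gen
  have h2 : (2 : ℝ≥0∞).toReal = ((2 : ℕ) : ℝ) := by norm_num
  simp only [h2, Real.rpow_natCast]
  exact hf

/-- Bergman embedding of polynomials in `ℓ²`. -/
noncomputable def Bm : ℂ[X] →ₗ[ℂ] GG where
  toFun p := ⟨fun i => p.coeff i / (Real.sqrt (i + 1) : ℂ), by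
    have : Memℓp (fun i : ℕ => p.coeff i / (Real.sqrt (i + 1) : ℂ)) 0 := by
      apply memℓp_zero
      refine (Finset.finite_toSet p.support).subset ?_
      intro i hi
      have hi' : p.coeff i / (Real.sqrt (i + 1) : ℂ) ≠ 0 := hi
      simp only [Finset.mem_coe, mem_support_iff]
      intro h0
      apply hi'
      rw [h0, zero_div]
    exact this.of_exponent_ge (by norm_num)⟩
  map_add' p q := by
    ext i
    change (p + q).coeff i / _ = p.coeff i / _ + q.coeff i / _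
    rw [coeff_add]; ring
  map_smul' r p := by
    ext i
    change (r • p).coeff i / _ = r * (p.coeff i / _)
    rw [coeff_smul, smul_eq_mul]; ring

theorem Bm_apply (p : ℂ[X]) (i : ℕ) : Bm p i = p.coeff i / (Real.sqrt (i + 1) : ℂ) := rfl

theorem norm_Bm_apply_sq (p : ℂ[X]) (i : ℕ) : ‖Bm p i‖ ^ 2 = ‖p.coeff i‖ ^ 2 / (i + 1) := by
  rw [Bm_apply, norm_div, div_pow, Complex.norm_real, Real.norm_eq_abs, sq_abs,
    Real.sq_sqrt (by positivity)]

theorem hasSum_Bm (p : ℂ[X]) : HasSum (fun i : ℕ => ‖p.coeff i‖ ^ 2 / (i + 1)) (‖Bm p‖ ^ 2) :=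
  (lp_hasSum_sq (Bm p)).congr_fun (fun i => (norm_Bm_apply_sq p i).symm)

theorem norm_Bm_sq (p : ℂ[X]) (N : ℕ) (hN : ∀ i, N ≤ i → p.coeff i = 0) :
    ‖Bm p‖ ^ 2 = ∑ i ∈ Finset.range N, ‖p.coeff i‖ ^ 2 / (i + 1) := by
  refine (hasSum_Bm p).unique (hasSum_sum_of_ne_finset_zero ?_)
  intro i hi
  rw [hN i (by simpa using hi)]
  simp

theorem norm_Bm_X_mul (p : ℂ[X]) : ‖Bm (X * p)‖ ≤ ‖Bm p‖ := by
  have h1 := hasSum_Bm (X * p)
  have h2 := hasSum_Bm p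
  have h3 := (hasSum_nat_add_iff' 1).2 h1
  simp only [Finset.range_one, Finset.sum_singleton, coeff_X_mul_zero, norm_zero] at h3
  have h4 : ‖Bm (X * p)‖ ^ 2 ≤ ‖Bm p‖ ^ 2 := by
    have h5 : ‖Bm (X * p)‖ ^ 2 - 0 ^ 2 / (((0 : ℕ) : ℝ) + 1) ≤ ‖Bm p‖ ^ 2 := by
      refine hasSum_le ?_ h3 h2
      intro i
      rw [coeff_X_mul]
      apply div_le_div_of_nonneg_left (by positivity) (by positivity)
      push_cast
      linarith
    simpa using h5
  exact (sq_le_sq₀ (norm_nonneg _) (norm_nonneg _)).1 h4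

/-- The `m`-th component. -/
noncomputable def Em (H : ℝ) (m : ℕ) : ℂ[X] →ₗ[ℂ] GG where
  toFun p := (rho H m : ℂ) • Bm (p.comp (aff (rho H m : ℂ)))
  map_add' p q := by rw [add_comp, map_add, smul_add]
  map_smul' r p := by
    rw [smul_comp, map_smul, smul_comm, RingHom.id_apply]

theorem Em_apply (H : ℝ) (m : ℕ) (p : ℂ[X]) :
    Em H m p = (rho H m : ℂ) • Bm (p.comp (aff (rho H m : ℂ))) := rfl

theorem norm_Em_X_mul (H : ℝ) (hH : 0 < H) (m : ℕ) (p : ℂ[X]) :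
    ‖Em H m (X * p)‖ ≤ ‖Em H m p‖ := by
  rw [Em_apply, Em_apply, norm_smul, norm_smul]
  refine mul_le_mul_of_nonneg_left ?_ (norm_nonneg _)
  rw [mul_comp, X_comp]
  set k := p.comp (aff (rho H m : ℂ))
  have h1 : aff (rho H m : ℂ) * k = ((1 - rho H m : ℝ) : ℂ) • k + ((rho H m : ℝ) : ℂ) • (X * k) := by
    rw [smul_eq_C_mul, smul_eq_C_mul]
    unfold aff
    push_cast
    ring
  rw [h1, map_add, map_smul, map_smul]
  refine (norm_add_le _ _).trans ?_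
  rw [norm_smul, norm_smul, Complex.norm_real, Complex.norm_real, Real.norm_eq_abs,
    Real.norm_eq_abs, abs_of_nonneg (by linarith [rho_le_one H hH m]),
    abs_of_pos (rho_pos H hH m)]
  have h2 := norm_Bm_X_mul k
  have h3 := rho_pos H hH m
  nlinarith [norm_nonneg (Bm k)]

theorem norm_Em_pow (H : ℝ) (m n : ℕ) :
    ‖Em H m (X ^ n)‖ ^ 2 = ∑ i ∈ Finset.range (n + 1), (rho H m * bw (rho H m) n i) ^ 2 / (i + 1) := by
  rw [Em_apply, norm_smul, mul_pow, pow_comp, X_comp,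
    norm_Bm_sq _ (n + 1) (by
      intro i hi
      rw [coeff_aff_pow, Nat.choose_eq_zero_of_lt (by omega)]; simp), Finset.mul_sum]
  refine Finset.sum_congr rfl (fun i _ => ?_)
  rw [coeff_aff_pow]
  have : ((n.choose i : ℂ) * (1 - (rho H m : ℂ)) ^ (n - i) * (rho H m : ℂ) ^ i) =
      ((bw (rho H m) n i : ℝ) : ℂ) := by
    unfold bw
    push_cast
    ring
  rw [this, Complex.norm_real, Complex.norm_real, Real.norm_eq_abs, Real.norm_eq_abs, sq_abs,
    sq_abs]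
  ring

theorem sum_Em_pow (H : ℝ) (hH : 0 < H) (n M : ℕ) :
    ∑ m ∈ Finset.range M, ‖Em H (m + 1) (X ^ n)‖ ^ 2 ≤ H / (n + 1) := by
  simp only [norm_Em_pow]
  exact telescoping H hH n M

theorem summable_Em_pow_succ (H : ℝ) (hH : 0 < H) (n : ℕ) :
    Summable (fun m => ‖Em H (m + 1) (X ^ n)‖ ^ 2) :=
  summable_of_sum_range_le (fun m => sq_nonneg _) (sum_Em_pow H hH n)

theorem tsum_Em_pow_succ (H : ℝ) (hH : 0 < H) (n : ℕ) :
    ∑' m, ‖Em H (m + 1) (X ^ n)‖ ^ 2 ≤ H / (n + 1) :=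
  Real.tsum_le_of_sum_range_le (fun m => sq_nonneg _) (sum_Em_pow H hH n)

theorem summable_Em_pow (H : ℝ) (hH : 0 < H) (n : ℕ) :
    Summable (fun m => ‖Em H m (X ^ n)‖ ^ 2) :=
  (summable_nat_add_iff 1).1 (summable_Em_pow_succ H hH n)

/-- The vectors `√(n+1) zⁿ`. -/
noncomputable def ww (H : ℝ) (hH : 0 < H) (n : ℕ) : HH :=
  ⟨fun m => (Real.sqrt (n + 1) : ℂ) • Em H m (X ^ n), by
    apply memlp_of_summable
    have := (summable_Em_pow H hH n).mul_left (‖(Real.sqrt (n + 1) : ℂ)‖ ^ 2)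
    refine this.congr (fun m => ?_)
    rw [norm_smul, mul_pow]⟩

theorem ww_apply (H : ℝ) (hH : 0 < H) (n m : ℕ) :
    ww H hH n m = (Real.sqrt (n + 1) : ℂ) • Em H m (X ^ n) := rfl

theorem Em_zero (H : ℝ) (hH : 0 < H) (p : ℂ[X]) : Em H 0 p = Bm p := by
  rw [Em_apply, rho_zero H hH]
  have : aff ((1 : ℝ) : ℂ) = X := by unfold aff; simp
  rw [this]; simp

theorem norm_ww_sq (H : ℝ) (hH : 0 < H) (n : ℕ) : ‖ww H hH n‖ ^ 2 ≤ 1 + H := by
  have h1 := lp_hasSum_sq (ww H hH n)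
  have h2 := (hasSum_nat_add_iff' 1).2 h1
  simp only [Finset.range_one, Finset.sum_singleton] at h2
  have h3 : ∀ m, ‖ww H hH n m‖ ^ 2 = (n + 1) * ‖Em H m (X ^ n)‖ ^ 2 := by
    intro m
    rw [ww_apply, norm_smul, mul_pow, Complex.norm_real, Real.norm_eq_abs, sq_abs,
      Real.sq_sqrt (by positivity)]
  have h4 : ‖ww H hH n 0‖ ^ 2 = 1 := by
    rw [h3, Em_zero H hH, norm_Bm_sq _ (n + 1) (by
      intro i hi; rw [coeff_X_pow, if_neg (by omega)]), Finset.sum_eq_single n]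
    · rw [coeff_X_pow, if_pos rfl]
      have : (n + 1 : ℝ) ≠ 0 := by positivity
      field_simp
      simp
    · intro i _ hi
      rw [coeff_X_pow, if_neg hi]; simp
    · simp
  have h5 : ‖ww H hH n‖ ^ 2 - 1 ≤ H := by
    rw [h4] at h2
    rw [← h2.tsum_eq]
    simp only [h3]
    rw [tsum_mul_left]
    have := tsum_Em_pow_succ H hH n
    calc ((n : ℝ) + 1) * ∑' m, ‖Em H (m + 1) (X ^ n)‖ ^ 2 ≤ (n + 1) * (H / (n + 1)) :=
          mul_le_mul_of_nonneg_left this (by positivity)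
      _ = H := by field_simp
  linarith

end Pool.Agent.Helper46.GKW
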