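import Mathlib
import Pool.Agent.Helper46.GKW.Ineq3

open Polynomial
open scoped ENNReal

namespace Pool.Agent.Helper46.GKW

/-- The increments of the square root. -/
noncomputable def kap (n : ℕ) : ℝ := Real.sqrt (n + 2) - Real.sqrt (n + 1)

theorem kap_nonneg (n : ℕ) : 0 ≤ kap n := by
  unfold kap
  have := Real.sqrt_le_sqrt (show (n + 1 : ℝ) ≤ n + 2 by linarith)
  linarith

theorem kap_sq_le (n : ℕ) : kap n ^ 2 ≤ 1 / (4 * (n + 1)) := by
  have h0 := kap_nonneg n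
  have h1 : Real.sqrt (n + 1) ≤ Real.sqrt (n + 2) :=
    Real.sqrt_le_sqrt (by linarith)
  have h2 : kap n * (Real.sqrt (n + 2) + Real.sqrt (n + 1)) = 1 := by
    unfold kap
    have e1 := Real.sq_sqrt (show (0 : ℝ) ≤ n + 2 by positivity)
    have e2 := Real.sq_sqrt (show (0 : ℝ) ≤ n + 1 by positivity)
    nlinarith
  have h3 : kap n * (2 * Real.sqrt (n + 1)) ≤ 1 := by
    calc kap n * (2 * Real.sqrt (n + 1)) ≤ kap n * (Real.sqrt (n + 2) + Real.sqrt (n + 1)) :=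
          mul_le_mul_of_nonneg_left (by linarith) h0
      _ = 1 := h2
  have h4 : (kap n * (2 * Real.sqrt (n + 1))) ^ 2 ≤ 1 ^ 2 :=
    pow_le_pow_left₀ (by positivity) h3 2
  rw [le_div_iff₀ (by positivity)]
  have e2 := Real.sq_sqrt (show (0 : ℝ) ≤ n + 1 by positivity)
  calc kap n ^ 2 * (4 * (n + 1)) = (kap n * (2 * Real.sqrt (n + 1))) ^ 2 := by
        rw [mul_pow, mul_pow, e2]; ring
    _ ≤ 1 := by simpa using h4

theorem sum_kap (H : ℝ) (hH : 0 < H) (N M : ℕ) :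
    ∑ m ∈ Finset.range M, ∑ n ∈ Finset.range N, kap n ^ 2 * ‖Em H (m + 1) (X ^ n)‖ ^ 2 ≤
      H * (Real.pi ^ 2 / 24) := by
  rw [Finset.sum_comm]
  have h1 : ∀ n ∈ Finset.range N, ∑ m ∈ Finset.range M,
      kap n ^ 2 * ‖Em H (m + 1) (X ^ n)‖ ^ 2 ≤ (H / 4) * (1 / ((n + 1 : ℕ) : ℝ) ^ 2) := by
    intro n _
    rw [← Finset.mul_sum]
    calc kap n ^ 2 * ∑ m ∈ Finset.range M, ‖Em H (m + 1) (X ^ n)‖ ^ 2
        ≤ 1 / (4 * (n + 1)) * (H / (n + 1)) :=
          mul_le_mul (kap_sq_le n) (sum_Em_pow H hH n M)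
            (Finset.sum_nonneg (fun _ _ => sq_nonneg _)) (by positivity)
      _ = (H / 4) * (1 / ((n + 1 : ℕ) : ℝ) ^ 2) := by
          push_cast
          field_simp
  refine (Finset.sum_le_sum h1).trans ?_
  rw [← Finset.mul_sum]
  have h2 : ∑ n ∈ Finset.range N, (1 / ((n + 1 : ℕ) : ℝ) ^ 2) ≤ Real.pi ^ 2 / 6 := by
    have h3 := hasSum_zeta_two
    have h4 := (hasSum_nat_add_iff' 1).2 h3
    simp only [Finset.range_one, Finset.sum_singleton, Nat.cast_zero, ne_eq, OfNat.ofNat_ne_zero,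
      not_false_eq_true, zero_pow, div_zero, sub_zero] at h4
    exact sum_le_hasSum _ (fun _ _ => by positivity) h4
  calc H / 4 * ∑ n ∈ Finset.range N, (1 / ((n + 1 : ℕ) : ℝ) ^ 2) ≤ H / 4 * (Real.pi ^ 2 / 6) :=
        mul_le_mul_of_nonneg_left h2 (by positivity)
    _ = H * (Real.pi ^ 2 / 24) := by ring

theorem key_ineq (H : ℝ) (hH : 0 < H) (hH2 : H * (Real.pi ^ 2 / 24) ≤ 0.98) (N : ℕ) (x : ℕ → ℂ) :
    ‖∑ n ∈ Finset.range N, x n • ww H hH (n + 1)‖ ^ 2 ≤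
      2.6 * ‖∑ n ∈ Finset.range N, x n • ww H hH n‖ ^ 2 := by
  set u := ∑ n ∈ Finset.range N, x n • ww H hH n with hu
  set u' := ∑ n ∈ Finset.range N, x n • ww H hH (n + 1) with hu'
  let P : ℂ[X] := ∑ n ∈ Finset.range N, (x n * (Real.sqrt (n + 1) : ℂ)) • X ^ n
  let K : ℂ[X] := ∑ n ∈ Finset.range N, (x n * (kap n : ℂ)) • X ^ n
  set X2 : ℝ := ∑ n ∈ Finset.range N, ‖x n‖ ^ 2 with hX2
  have hum : ∀ m, u m = Em H m P := by
    intro m
    rw [hu, lp.coeFn_sum, Finset.sum_apply]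
    simp only [P, map_sum, map_smul]
    refine Finset.sum_congr rfl (fun n _ => ?_)
    rw [lp.coeFn_smul, Pi.smul_apply, ww_apply, smul_smul]
  have hPK : X * (P + K) = ∑ n ∈ Finset.range N, (x n * (Real.sqrt ((n + 1 : ℕ) + 1) : ℂ)) •
      (X : ℂ[X]) ^ (n + 1) := by
    simp only [P, K]
    rw [← Finset.sum_add_distrib, Finset.mul_sum]
    refine Finset.sum_congr rfl (fun n _ => ?_)
    rw [← add_smul, mul_smul_comm, ← pow_succ']
    congr 1
    unfold kap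
    rw [show ((n + 1 : ℕ) : ℝ) + 1 = (n : ℝ) + 2 by push_cast; ring]
    push_cast
    ring
  have hu'm : ∀ m, u' m = Em H m (X * (P + K)) := by
    intro m
    rw [hu', lp.coeFn_sum, Finset.sum_apply, hPK]
    simp only [map_sum, map_smul]
    refine Finset.sum_congr rfl (fun n _ => ?_)
    rw [lp.coeFn_smul, Pi.smul_apply, ww_apply, smul_smul]
  have hu0 : ‖u 0‖ ^ 2 = X2 := by
    rw [hum, Em_zero H hH]
    have hc : ∀ i, P.coeff i = if i < N then x i * (Real.sqrt (i + 1) : ℂ) else 0 := by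
      intro i
      simp only [P, finsetSum_coeff, coeff_smul, coeff_X_pow, smul_eq_mul, mul_ite, mul_one,
        mul_zero]
      rw [Finset.sum_ite_eq]
      simp only [Finset.mem_range]
    rw [norm_Bm_sq P N (fun i hi => by rw [hc, if_neg (not_lt.2 hi)]), hX2]
    refine Finset.sum_congr rfl (fun i hi => ?_)
    rw [hc, if_pos (by simpa using hi), norm_mul, mul_pow, Complex.norm_real, Real.norm_eq_abs,
      sq_abs, Real.sq_sqrt (by positivity)]
    field_simp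
  have hu'0 : ‖u' 0‖ ^ 2 = X2 := by
    rw [hu'm, Em_zero H hH]
    have hc : ∀ i, (P + K).coeff i =
        if i < N then x i * (Real.sqrt ((i + 1 : ℕ) + 1) : ℂ) else 0 := by
      intro i
      have h1 : (X * (P + K)).coeff (i + 1) = (P + K).coeff i := coeff_X_mul _ _
      rw [← h1, hPK]
      simp only [finsetSum_coeff, coeff_smul, coeff_X_pow, smul_eq_mul, mul_ite, mul_one,
        mul_zero, add_left_inj]
      rw [Finset.sum_ite_eq]
      simp only [Finset.mem_range]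
    rw [norm_Bm_sq (X * (P + K)) (N + 1) (fun i hi => by
      obtain ⟨j, rfl⟩ : ∃ j, i = j + 1 := ⟨i - 1, by omega⟩
      rw [coeff_X_mul, hc, if_neg (by omega)]), hX2, Finset.sum_range_succ']
    rw [coeff_X_mul_zero]
    simp only [norm_zero, ne_eq, OfNat.ofNat_ne_zero, not_false_eq_true, zero_pow, zero_div,
      add_zero]
    refine Finset.sum_congr rfl (fun i hi => ?_)
    rw [coeff_X_mul, hc, if_pos (by simpa using hi), norm_mul, mul_pow, Complex.norm_real,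
      Real.norm_eq_abs, sq_abs, Real.sq_sqrt (by positivity)]
    field_simp
  let τ : ℕ → ℝ := fun m => ∑ n ∈ Finset.range N, kap n ^ 2 * ‖Em H (m + 1) (X ^ n)‖ ^ 2
  have hτnn : ∀ m, 0 ≤ τ m := fun m => Finset.sum_nonneg (fun n _ => by positivity)
  have hτs : Summable τ := summable_of_sum_range_le hτnn (fun M => sum_kap H hH N M)
  have hτt : ∑' m, τ m ≤ 0.98 :=
    (Real.tsum_le_of_sum_range_le hτnn (fun M => sum_kap H hH N M)).trans hH2
  have hK : ∀ m, ‖Em H (m + 1) K‖ ^ 2 ≤ X2 * τ m := by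
    intro m
    have h1 : ‖Em H (m + 1) K‖ ≤ ∑ n ∈ Finset.range N, ‖x n‖ * (kap n * ‖Em H (m + 1) (X ^ n)‖) := by
      simp only [K, map_sum, map_smul]
      refine norm_sum_le_of_le _ (fun n _ => ?_)
      rw [norm_smul, norm_mul, Complex.norm_real, Real.norm_eq_abs, abs_of_nonneg (kap_nonneg n),
        mul_assoc]
    have h2 : (∑ n ∈ Finset.range N, ‖x n‖ * (kap n * ‖Em H (m + 1) (X ^ n)‖)) ^ 2 ≤
        X2 * ∑ n ∈ Finset.range N, (kap n * ‖Em H (m + 1) (X ^ n)‖) ^ 2 :=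
      Finset.sum_mul_sq_le_sq_mul_sq _ _ _
    have h3 : ∑ n ∈ Finset.range N, (kap n * ‖Em H (m + 1) (X ^ n)‖) ^ 2 = τ m := by
      simp only [τ, mul_pow]
    rw [h3] at h2
    exact (pow_le_pow_left₀ (norm_nonneg _) h1 2).trans h2
  have hstep : ∀ m, ‖u' (m + 1)‖ ^ 2 ≤ 2.6 * ‖u (m + 1)‖ ^ 2 + 1.625 * X2 * τ m := by
    intro m
    rw [hu'm, hum]
    have h1 := norm_Em_X_mul H hH (m + 1) (P + K)
    have h2 : ‖Em H (m + 1) (P + K)‖ ≤ ‖Em H (m + 1) P‖ + ‖Em H (m + 1) K‖ := by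
      rw [map_add]; exact norm_add_le _ _
    have h3 : ‖Em H (m + 1) (X * (P + K))‖ ^ 2 ≤ (‖Em H (m + 1) P‖ + ‖Em H (m + 1) K‖) ^ 2 :=
      pow_le_pow_left₀ (norm_nonneg _) (h1.trans h2) 2
    have h4 := hK m
    nlinarith [sq_nonneg (1.6 * ‖Em H (m + 1) P‖ - ‖Em H (m + 1) K‖)]
  have s1 := (hasSum_nat_add_iff' 1).2 (lp_hasSum_sq u)
  have s2 := (hasSum_nat_add_iff' 1).2 (lp_hasSum_sq u')
  simp only [Finset.range_one, Finset.sum_singleton] at s1 s2
  rw [hu0] at s1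
  rw [hu'0] at s2
  have s3 := (s1.mul_left 2.6).add (hτs.hasSum.mul_left (1.625 * X2))
  have s4 := hasSum_le hstep s2 s3
  have hX2nn : 0 ≤ X2 := Finset.sum_nonneg (fun _ _ => sq_nonneg _)
  have h5 : 1.625 * X2 * ∑' m, τ m ≤ 1.625 * X2 * 0.98 :=
    mul_le_mul_of_nonneg_left hτt (by positivity)
  nlinarith

end Pool.Agent.Helper46.GKW
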