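import Mathlib
import Pool.Agent.Helper46.GKW.Ineq4
import Pool.Agent.Helper46.GKW.Abstract

open Polynomial
open scoped ENNReal InnerProductSpace
open Module.End

namespace Pool.Agent.Helper46.GKW

noncomputable def s5 : ℝ := Real.sqrt 5

theorem s5_pos : 0 < s5 := Real.sqrt_pos.2 (by norm_num)

theorem s5_sq : s5 ^ 2 = 5 := Real.sq_sqrt (by norm_num)

theorem s5_gt : 2.236 < s5 := by
  unfold s5
  exact Real.lt_sqrt_of_sq_lt (by norm_num)

theorem s5_lt : s5 < 2.237 := by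
  unfold s5
  rw [Real.sqrt_lt' (by norm_num)]
  norm_num

/-- The inverse golden ratio. -/
noncomputable def psi : ℝ := (s5 - 1) / 2

theorem psi_pos : 0 < psi := by
  unfold psi; linarith [s5_gt]

theorem psi_sq : psi ^ 2 = 1 - psi := by
  unfold psi
  nlinarith [s5_sq]

theorem psi_lt : psi < 0.6185 := by
  unfold psi; linarith [s5_lt]

theorem psi_gt : 0.618 ≤ psi := by
  unfold psi; linarith [s5_gt]

theorem hH2 : s5 * (Real.pi ^ 2 / 24) ≤ 0.98 := by
  have h1 := Real.pi_lt_d2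
  have h2 := Real.pi_pos
  have h3 : Real.pi ^ 2 ≤ 3.15 ^ 2 := pow_le_pow_left₀ h2.le h1.le 2
  have h4 := s5_lt
  have h5 := s5_pos
  nlinarith

/-- The vectors `c_n`. -/
noncomputable def cc (n : ℕ) : HH := ((psi ^ (n + 1) : ℝ) : ℂ) • ww s5 s5_pos n

theorem norm_cc_sq (n : ℕ) : ‖cc n‖ ^ 2 ≤ (1 + s5) * (psi ^ 2) ^ (n + 1) := by
  unfold cc
  rw [norm_smul, mul_pow, Complex.norm_real, Real.norm_eq_abs, sq_abs, ← pow_mul, mul_comm (n + 1) 2,
    pow_mul, mul_comm]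
  exact mul_le_mul_of_nonneg_right (norm_ww_sq s5 s5_pos n) (by positivity)

theorem summable_cc : Summable (fun n => ‖cc n‖ ^ 2) := by
  have h1 : Summable (fun n : ℕ => (1 + s5) * (psi ^ 2) ^ (n + 1)) := by
    apply Summable.mul_left
    rw [summable_nat_add_iff 1 (f := fun n : ℕ => (psi ^ 2) ^ n)]
    apply summable_geometric_of_lt_one (by positivity)
    rw [psi_sq]
    linarith [psi_pos]
  exact h1.of_nonneg_of_le (fun n => sq_nonneg _) norm_cc_sq

theorem shift_cc (v : ℕ →₀ ℂ) :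
    ‖Finsupp.linearCombination ℂ (fun n => cc (n + 1)) v‖ ^ 2 ≤
      (2.6 * psi ^ 2) * ‖Finsupp.linearCombination ℂ cc v‖ ^ 2 := by
  obtain ⟨N, hN⟩ : ∃ N, v.support ⊆ Finset.range N := by
    obtain ⟨N, hN⟩ := v.support.bddAbove
    refine ⟨N + 1, fun i hi => ?_⟩
    have : i ≤ N := hN hi
    simp only [Finset.mem_range]; omega
  rw [Finsupp.linearCombination_apply, Finsupp.linearCombination_apply,
    Finsupp.sum_of_support_subset v hN _ (by simp),
    Finsupp.sum_of_support_subset v hN _ (by simp)]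
  have h1 : ∑ i ∈ Finset.range N, v i • cc (i + 1) = ((psi : ℝ) : ℂ) •
      ∑ i ∈ Finset.range N, (v i * ((psi ^ (i + 1) : ℝ) : ℂ)) • ww s5 s5_pos (i + 1) := by
    rw [Finset.smul_sum]
    refine Finset.sum_congr rfl (fun i _ => ?_)
    unfold cc
    rw [smul_smul, smul_smul]
    congr 1
    push_cast
    ring
  have h2 : ∑ i ∈ Finset.range N, v i • cc i =
      ∑ i ∈ Finset.range N, (v i * ((psi ^ (i + 1) : ℝ) : ℂ)) • ww s5 s5_pos i := by
    refine Finset.sum_congr rfl (fun i _ => ?_)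
    unfold cc
    rw [smul_smul]
  rw [h1, h2, norm_smul, mul_pow, Complex.norm_real, Real.norm_eq_abs, sq_abs]
  have h3 := key_ineq s5 s5_pos hH2 N (fun i => v i * ((psi ^ (i + 1) : ℝ) : ℂ))
  calc psi ^ 2 * _ ≤ psi ^ 2 * (2.6 * _) := mul_le_mul_of_nonneg_left h3 (by positivity)
    _ = _ := by ring

/-- Dual vectors. -/
noncomputable def ee (k : ℕ) : HH := lp.single 2 0 (lp.single 2 k (1 : ℂ))

theorem inner_cc_ee (n k : ℕ) :
    ⟪cc n, ee k⟫_ℂ = if n = k then ((psi ^ (k + 1) : ℝ) : ℂ) else 0 := by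
  unfold ee
  rw [lp.inner_single_right, lp.inner_single_right]
  have h1 : (cc n 0 : GG) k = ((psi ^ (n + 1) : ℝ) : ℂ) * ((Real.sqrt (n + 1) : ℂ) *
      ((X ^ n : ℂ[X]).coeff k / (Real.sqrt (k + 1) : ℂ))) := by
    unfold cc
    rw [lp.coeFn_smul, Pi.smul_apply, ww_apply, Em_zero s5 s5_pos]
    rfl
  rw [h1, coeff_X_pow]
  by_cases h : n = k
  · subst h
    rw [if_pos rfl, if_pos rfl]
    have h2 : (Real.sqrt (n + 1) : ℂ) ≠ 0 := by
      rw [Complex.ofReal_ne_zero]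
      exact (Real.sqrt_pos.2 (by positivity)).ne'
    have h3 : (Real.sqrt (n + 1) : ℂ) * (1 / (Real.sqrt (n + 1) : ℂ)) = 1 := by
      field_simp
    rw [h3, mul_one]
    simp
  · rw [if_neg (fun h' => h h'.symm), if_neg h]
    simp

theorem main_opA :
    ∃ lam : ℕ → ℝ, (∀ n, 0 < (-1 : ℝ) ^ n * lam n) ∧ StrictAnti (fun n => |lam n|) ∧
      Filter.Tendsto lam Filter.atTop (nhds 0) ∧
      (∀ μ : ℂ, μ ≠ 0 → (HasEigenvalue (opA cc : Module.End ℂ HH) μ ↔ ∃ n, μ = lam n)) ∧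
      ∀ n, Module.finrank ℂ (maxGenEigenspace (opA cc : Module.End ℂ HH) (lam n : ℂ)) = 1 := by
  refine abstract_main cc summable_cc (2.6 * psi ^ 2) ?_ ?_ shift_cc ee
    (fun k => ((psi ^ (k + 1) : ℝ) : ℂ)) ?_ inner_cc_ee
  · have := psi_pos; positivity
  · rw [psi_sq]
    linarith [psi_gt]
  · intro n
    rw [Complex.ofReal_ne_zero]
    exact pow_ne_zero _ psi_pos.ne'

end Pool.Agent.Helper46.GKW
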