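import Mathlib
import Pool.Agent.Helper46.GKW.Op

open Complex

namespace Pool.Agent.Helper46.GKW

/-! ### Geometry of the discs -/

theorem re_gt_of_mem_ball {z : ℂ} (hz : z ∈ Metric.ball (1 : ℂ) (3 / 2)) : -(1 / 2) < z.re := by
  rw [Metric.mem_ball, Complex.dist_eq] at hz
  have h := Complex.abs_re_le_norm (z - 1)
  rw [Complex.sub_re, Complex.one_re] at h
  have := neg_abs_le (z.re - 1)
  linarith

theorem re_ge_of_mem {z : ℂ} (hz : z ∈ Metric.closedBall (1 : ℂ) (3 / 2)) : -(1 / 2) ≤ z.re := by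
  rw [Metric.mem_closedBall, Complex.dist_eq] at hz
  have h := Complex.abs_re_le_norm (z - 1)
  rw [Complex.sub_re, Complex.one_re] at h
  have := neg_abs_le (z.re - 1)
  linarith

theorem inv_mem {ζ : ℂ} (h : 9 / 20 ≤ ζ.re) :
    1 / ζ ∈ Metric.closedBall (10 / 9 : ℂ) (10 / 9) := by
  have hne : ζ ≠ 0 := by
    intro h0; rw [h0] at h; norm_num at h
  rw [Metric.mem_closedBall, Complex.dist_eq]
  have h1 : 1 / ζ - 10 / 9 = (9 - 10 * ζ) / (9 * ζ) := by field_simp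
  rw [h1, norm_div, norm_mul]
  have h9 : ‖(9 : ℂ)‖ = 9 := by norm_num
  rw [h9, div_le_iff₀ (by positivity)]
  have h2 : ‖9 - 10 * ζ‖ ^ 2 ≤ (10 * ‖ζ‖) ^ 2 := by
    rw [mul_pow, ← Complex.normSq_eq_norm_sq, ← Complex.normSq_eq_norm_sq, Complex.normSq_apply,
      Complex.normSq_apply]
    simp only [Complex.sub_re, Complex.mul_re, Complex.sub_im, Complex.mul_im]
    norm_num
    nlinarith
  have h3 : ‖9 - 10 * ζ‖ ≤ 10 * ‖ζ‖ := (sq_le_sq₀ (norm_nonneg _) (by positivity)).1 h2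
  linarith

theorem closedBall_sub_ball :
    Metric.closedBall (10 / 9 : ℂ) (10 / 9) ⊆ Metric.ball (1 : ℂ) (3 / 2) := by
  intro z hz
  rw [Metric.mem_closedBall, Complex.dist_eq] at hz
  rw [Metric.mem_ball, Complex.dist_eq]
  have : z - 1 = (z - 10 / 9) + 1 / 9 := by ring
  rw [this]
  refine lt_of_le_of_lt (norm_add_le _ _) ?_
  have h1 : ‖(1 / 9 : ℂ)‖ = 1 / 9 := by
    rw [norm_div]; norm_num
  rw [h1]
  linarith

/-- The transfer operator acting on functions on `ℂ`. -/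
noncomputable def LL (F : ℂ → ℂ) (z : ℂ) : ℂ :=
  ∑' m : ℕ, 1 / (z + ((m : ℂ) + 1)) ^ 2 * F (1 / (z + ((m : ℂ) + 1)))

/-- An open half plane containing the closed disc. -/
def Om : Set ℂ := {z | -(11 / 20) < z.re}

theorem isOpen_Om : IsOpen Om := isOpen_lt continuous_const Complex.continuous_re

theorem mem_Om_of_mem {z : ℂ} (hz : z ∈ Metric.closedBall (1 : ℂ) (3 / 2)) : z ∈ Om := by
  have := re_ge_of_mem hz
  change -(11 / 20) < z.re
  linarith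

theorem re_shift {z : ℂ} (hz : z ∈ Om) (m : ℕ) : 9 / 20 ≤ (z + ((m : ℂ) + 1)).re := by
  have h1 : -(11 / 20) < z.re := hz
  simp only [Complex.add_re, Complex.natCast_re, Complex.one_re]
  have : (0 : ℝ) ≤ m := Nat.cast_nonneg m
  linarith

theorem norm_shift_ge {z : ℂ} (hz : z ∈ Om) (m : ℕ) :
    9 / 20 * ((m : ℝ) + 1) ≤ ‖z + ((m : ℂ) + 1)‖ := by
  have h1 : -(11 / 20) < z.re := hz
  have h2 : (z + ((m : ℂ) + 1)).re ≤ ‖z + ((m : ℂ) + 1)‖ := Complex.re_le_norm _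
  simp only [Complex.add_re, Complex.natCast_re, Complex.one_re] at h2
  have : (0 : ℝ) ≤ m := Nat.cast_nonneg m
  linarith

theorem shift_ne_zero {z : ℂ} (hz : z ∈ Om) (m : ℕ) : z + ((m : ℂ) + 1) ≠ 0 := by
  intro h0
  have := re_shift hz m
  rw [h0] at this
  norm_num at this

theorem exists_bound (F : ℂ → ℂ) (hF : DifferentiableOn ℂ F (Metric.ball (1 : ℂ) (3 / 2))) :
    ∃ M : ℝ, 0 ≤ M ∧ ∀ z ∈ Metric.closedBall (10 / 9 : ℂ) (10 / 9), ‖F z‖ ≤ M := by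
  have hc : ContinuousOn F (Metric.closedBall (10 / 9 : ℂ) (10 / 9)) :=
    hF.continuousOn.mono closedBall_sub_ball
  obtain ⟨M, hM⟩ := (isCompact_closedBall (10 / 9 : ℂ) (10 / 9)).exists_bound_of_continuousOn hc
  exact ⟨max M 0, le_max_right _ _, fun z hz => (hM z hz).trans (le_max_left _ _)⟩

theorem LL_term_bound (F : ℂ → ℂ) (M : ℝ) (hM0 : 0 ≤ M)
    (hM : ∀ z ∈ Metric.closedBall (10 / 9 : ℂ) (10 / 9), ‖F z‖ ≤ M) {z : ℂ} (hz : z ∈ Om) (m : ℕ) :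
    ‖1 / (z + ((m : ℂ) + 1)) ^ 2 * F (1 / (z + ((m : ℂ) + 1)))‖ ≤
      M * (20 / 9) ^ 2 * (1 / ((m + 1 : ℕ) : ℝ) ^ 2) := by
  rw [norm_mul, norm_div, norm_one, norm_pow]
  have h1 := norm_shift_ge hz m
  have h2 := hM _ (inv_mem (re_shift hz m))
  have hpos : (0 : ℝ) < 9 / 20 * ((m : ℝ) + 1) := by positivity
  have h3 : 1 / ‖z + ((m : ℂ) + 1)‖ ^ 2 ≤ 1 / (9 / 20 * ((m : ℝ) + 1)) ^ 2 := by
    apply one_div_le_one_div_of_le (by positivity)
    exact pow_le_pow_left₀ hpos.le h1 2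
  calc 1 / ‖z + ((m : ℂ) + 1)‖ ^ 2 * ‖F (1 / (z + ((m : ℂ) + 1)))‖
      ≤ 1 / (9 / 20 * ((m : ℝ) + 1)) ^ 2 * M := mul_le_mul h3 h2 (norm_nonneg _) (by positivity)
    _ = M * (20 / 9) ^ 2 * (1 / ((m + 1 : ℕ) : ℝ) ^ 2) := by
        push_cast
        field_simp

theorem summable_inv_sq : Summable (fun m : ℕ => 1 / ((m + 1 : ℕ) : ℝ) ^ 2) :=
  (summable_nat_add_iff 1 (f := fun m : ℕ => 1 / (m : ℝ) ^ 2)).2
    (Real.summable_one_div_nat_pow.2 (by norm_num))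

theorem summable_LL (F : ℂ → ℂ) (hF : DifferentiableOn ℂ F (Metric.ball (1 : ℂ) (3 / 2))) {z : ℂ}
    (hz : z ∈ Om) :
    Summable (fun m : ℕ => 1 / (z + ((m : ℂ) + 1)) ^ 2 * F (1 / (z + ((m : ℂ) + 1)))) := by
  obtain ⟨M, hM0, hM⟩ := exists_bound F hF
  exact Summable.of_norm_bounded (summable_inv_sq.mul_left (M * (20 / 9) ^ 2))
    (fun m => LL_term_bound F M hM0 hM hz m)

theorem differentiableOn_LL (F : ℂ → ℂ) (hF : DifferentiableOn ℂ F (Metric.ball (1 : ℂ) (3 / 2))) :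
    DifferentiableOn ℂ (LL F) Om := by
  obtain ⟨M, hM0, hM⟩ := exists_bound F hF
  refine differentiableOn_tsum_of_summable_norm (summable_inv_sq.mul_left (M * (20 / 9) ^ 2)) ?_
    isOpen_Om (fun m w hw => LL_term_bound F M hM0 hM hw m)
  intro m
  have h1 : DifferentiableOn ℂ (fun z : ℂ => z + ((m : ℂ) + 1)) Om := by fun_prop
  have h2 : DifferentiableOn ℂ (fun z : ℂ => 1 / (z + ((m : ℂ) + 1))) Om :=
    DifferentiableOn.div (differentiableOn_const _) h1 (fun z hz => shift_ne_zero hz m)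
  have h3 : DifferentiableOn ℂ (fun z : ℂ => 1 / (z + ((m : ℂ) + 1)) ^ 2) Om :=
    DifferentiableOn.div (differentiableOn_const _) (h1.pow 2)
      (fun z hz => pow_ne_zero _ (shift_ne_zero hz m))
  exact h3.mul (hF.comp h2 (fun z hz => closedBall_sub_ball (inv_mem (re_shift hz m))))

end Pool.Agent.Helper46.GKW
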