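import Mathlib
import Pool.Agent.Helper46.GKW.Disc
import Pool.Agent.Helper46.GKW.Defs0

open Complex

namespace Pool.Agent.Helper46.GKW

theorem openDisc_sub {z : ℂ} (hz : z ∈ openDisc) : z ∈ disc := Metric.ball_subset_closedBall hz

theorem IsV.add {f g : ℂ → ℂ} (hf : IsV f) (hg : IsV g) : IsV (f + g) :=
  ⟨hf.1.add hg.1, hf.2.1.add hg.2.1, fun z hz => by
    rw [Pi.add_apply, hf.2.2 z hz, hg.2.2 z hz, add_zero]⟩

theorem IsV.zero : IsV 0 :=
  ⟨continuousOn_const, differentiableOn_const _, fun _ _ => rfl⟩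

theorem IsV.smul (c : ℂ) {f : ℂ → ℂ} (hf : IsV f) : IsV (c • f) :=
  ⟨hf.1.const_smul c, hf.2.1.const_smul c, fun z hz => by
    rw [Pi.smul_apply, hf.2.2 z hz, smul_zero]⟩

/-- The space of the functions which are continuous on the closed disc `|x - 1| ≤ 3/2` and analytic
in the open disc `|x - 1| < 3/2`; a function on the closed disc is identified with its extension
by `0` to `ℂ`. -/
def V : Submodule ℂ (ℂ → ℂ) where
  carrier := {f | IsV f}
  add_mem' := IsV.add
  zero_mem' := IsV.zero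
  smul_mem' := IsV.smul

theorem V_diff (f : V) : DifferentiableOn ℂ (f : ℂ → ℂ) (Metric.ball (1 : ℂ) (3 / 2)) :=
  f.2.2.1

theorem gkwOp_of_mem (f : ℂ → ℂ) {x : ℂ} (hx : x ∈ disc) : gkwOp f x = LL f x := by
  unfold gkwOp
  rw [if_pos hx]
  rfl

theorem branch_mem (m : ℕ) {x : ℂ} (hx : x ∈ disc) : 1 / (x + ((m : ℂ) + 1)) ∈ disc :=
  Metric.ball_subset_closedBall (closedBall_sub_ball (inv_mem (re_shift (mem_Om_of_mem hx) m)))

open scoped Classical in
theorem restr_mem (F : ℂ → ℂ) (hF : DifferentiableOn ℂ F Om) :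
    IsV (fun x => if x ∈ disc then F x else 0) := by
  have h1 : ContinuousOn F disc := hF.continuousOn.mono (fun z hz => mem_Om_of_mem hz)
  have h2 : DifferentiableOn ℂ F openDisc :=
      hF.mono (fun z hz => mem_Om_of_mem (openDisc_sub hz))
  refine ⟨h1.congr (fun z hz => by simp [hz]), h2.congr (fun z hz => by simp [openDisc_sub hz]),
    fun z hz => by simp [hz]⟩

open scoped Classical in
/-- Restriction to the disc of a function which is holomorphic near it. -/
noncomputable def restr (F : ℂ → ℂ) (hF : DifferentiableOn ℂ F Om) : V :=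
  ⟨fun x => if x ∈ disc then F x else 0, restr_mem F hF⟩

theorem restr_apply (F : ℂ → ℂ) (hF : DifferentiableOn ℂ F Om) {x : ℂ} (hx : x ∈ disc) :
    (restr F hF : ℂ → ℂ) x = F x := if_pos hx

theorem gkwOp_mem {f : ℂ → ℂ} (hf : IsV f) : IsV (gkwOp f) := by
  have h := restr_mem (LL f) (differentiableOn_LL _ hf.2.1)
  exact h

/-- The image of a function under the Gauss-Kuzmin-Wirsing operator. -/
noncomputable def gkwFun (f : V) : V := ⟨gkwOp f, gkwOp_mem f.2⟩

theorem gkwFun_add (f g : V) : gkwFun (f + g) = gkwFun f + gkwFun g := by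
  apply Subtype.ext
  funext x
  change gkwOp ((f : ℂ → ℂ) + g) x = gkwOp f x + gkwOp g x
  by_cases hx : x ∈ disc
  · have hf := summable_LL _ (V_diff f) (mem_Om_of_mem hx)
    have hg := summable_LL _ (V_diff g) (mem_Om_of_mem hx)
    rw [gkwOp_of_mem _ hx, gkwOp_of_mem _ hx, gkwOp_of_mem _ hx]
    unfold LL
    rw [← hf.tsum_add hg]
    refine tsum_congr (fun m => ?_)
    rw [Pi.add_apply]; ring
  · unfold gkwOp
    simp [hx]

theorem gkwFun_smul (c : ℂ) (f : V) : gkwFun (c • f) = c • gkwFun f := by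
  apply Subtype.ext
  funext x
  change gkwOp (c • (f : ℂ → ℂ)) x = c * gkwOp f x
  by_cases hx : x ∈ disc
  · rw [gkwOp_of_mem _ hx, gkwOp_of_mem _ hx]
    unfold LL
    rw [← tsum_mul_left]
    refine tsum_congr (fun m => ?_)
    rw [Pi.smul_apply, smul_eq_mul]; ring
  · unfold gkwOp
    simp [hx]

/-- The Gauss-Kuzmin-Wirsing operator
`L[f](x) = ∑_{m ≥ 1} (x + m)⁻² f(1 / (x + m))` on the space `V`. -/
noncomputable def gkw : Module.End ℂ V where
  toFun := gkwFun
  map_add' := gkwFun_add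
  map_smul' := gkwFun_smul

theorem gkw_apply (f : V) {x : ℂ} (hx : x ∈ disc) : (gkw f : ℂ → ℂ) x = LL f x :=
  gkwOp_of_mem f hx

end Pool.Agent.Helper46.GKW
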