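import Mathlib
import Pool.Agent.Helper46.GKW.Defs

open Complex
open scoped NNReal Real

namespace Pool.Agent.Helper46.GKW

/-- The golden ratio. -/
noncomputable def ph : ℝ := psi + 1

theorem ph_pos : 0 < ph := by unfold ph; linarith [psi_pos]

theorem psi_mul_ph : psi * ph = 1 := by
  unfold ph
  have := psi_sq
  nlinarith

theorem ph_add_psi : ph + psi = s5 := by
  unfold ph psi; ring

theorem psi_mul_phC : (psi : ℂ) * (ph : ℂ) = 1 := by
  rw [← Complex.ofReal_mul, psi_mul_ph, Complex.ofReal_one]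

theorem ph_add_psiC : (ph : ℂ) + (psi : ℂ) = (s5 : ℂ) := by
  rw [← Complex.ofReal_add, ph_add_psi]

theorem phC : (ph : ℂ) = (psi : ℂ) + 1 := by
  unfold ph; push_cast; ring

/-- The coordinate `y = (z - 1/φ)/(z + φ)`. -/
noncomputable def yy (z : ℂ) : ℂ := (z - psi) / (z + ph)

/-- The inverse coordinate. -/
noncomputable def xx (y : ℂ) : ℂ := (psi + ph * y) / (1 - y)

theorem xx_add (y : ℂ) (hy : y ≠ 1) : xx y + ph = s5 / (1 - y) := by
  unfold xx
  have h1 : (1 - y) ≠ 0 := sub_ne_zero.2 (Ne.symm hy)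
  rw [← ph_add_psiC]
  field_simp
  ring

theorem s5C_ne : (s5 : ℂ) ≠ 0 := by
  rw [Complex.ofReal_ne_zero]; exact s5_pos.ne'

theorem yy_xx (y : ℂ) (hy : y ≠ 1) : yy (xx y) = y := by
  unfold yy
  rw [xx_add y hy]
  have h1 : (1 - y) ≠ 0 := sub_ne_zero.2 (Ne.symm hy)
  have h2 := s5C_ne
  unfold xx
  rw [← ph_add_psiC] at h2 ⊢
  field_simp
  ring

theorem one_sub_yy (z : ℂ) (hz : z + ph ≠ 0) : 1 - yy z = s5 / (z + ph) := by
  unfold yy
  rw [← ph_add_psiC]
  field_simp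
  ring

theorem xx_yy (z : ℂ) (hz : z + ph ≠ 0) : xx (yy z) = z := by
  unfold xx
  rw [one_sub_yy z hz]
  unfold yy
  have h2 := s5C_ne
  rw [← ph_add_psiC] at h2 ⊢
  field_simp
  ring

theorem add_ph_ne {z : ℂ} (hz : -(1 / 2) < z.re) : z + ph ≠ 0 := by
  intro h0
  have : (z + ph).re = 0 := by rw [h0]; simp
  rw [Complex.add_re, Complex.ofReal_re] at this
  have := ph_pos
  have h2 : 1 ≤ ph := by unfold ph; linarith [psi_pos]
  linarith

theorem norm_yy_lt {z : ℂ} (hz : -(1 / 2) < z.re) : ‖yy z‖ < 1 := by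
  unfold yy
  have hne := add_ph_ne hz
  rw [norm_div, div_lt_one (norm_pos_iff.2 hne)]
  have h1 : ‖z - psi‖ ^ 2 < ‖z + ph‖ ^ 2 := by
    rw [← Complex.normSq_eq_norm_sq, ← Complex.normSq_eq_norm_sq, Complex.normSq_apply,
      Complex.normSq_apply]
    simp only [Complex.sub_re, Complex.sub_im, Complex.add_re, Complex.add_im, Complex.ofReal_re,
      Complex.ofReal_im]
    have h2 := ph_add_psi
    have h3 := s5_pos
    have h4 : ph - psi = 1 := by unfold ph; ring
    nlinarith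
  exact lt_of_pow_lt_pow_left₀ 2 (norm_nonneg _) h1

theorem xx_mem {y : ℂ} (hy : ‖y‖ ≤ 9 / 20) : xx y ∈ Metric.ball (1 : ℂ) (3 / 2) := by
  have hy1 : y ≠ 1 := by
    intro h; rw [h] at hy; norm_num at hy
  have h1 : (1 - y) ≠ 0 := sub_ne_zero.2 (Ne.symm hy1)
  rw [Metric.mem_ball, Complex.dist_eq]
  have h2 : xx y - 1 = ((psi - 1) + (ph + 1) * y) / (1 - y) := by
    unfold xx; field_simp; ring
  rw [h2, norm_div, div_lt_iff₀ (norm_pos_iff.2 h1)]
  have h3 : ‖((psi : ℂ) - 1) + (ph + 1) * y‖ ^ 2 < (3 / 2 * ‖1 - y‖) ^ 2 := by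
    rw [mul_pow, ← Complex.normSq_eq_norm_sq, ← Complex.normSq_eq_norm_sq, Complex.normSq_apply,
      Complex.normSq_apply]
    simp only [Complex.sub_re, Complex.sub_im, Complex.add_re, Complex.add_im, Complex.ofReal_re,
      Complex.ofReal_im, Complex.mul_re, Complex.mul_im, Complex.one_re, Complex.one_im]
    have h5 : ‖y‖ ^ 2 ≤ (9 / 20) ^ 2 := pow_le_pow_left₀ (norm_nonneg _) hy 2
    rw [← Complex.normSq_eq_norm_sq, Complex.normSq_apply] at h5
    have h6 : y.re ≤ 9 / 20 := (Complex.re_le_norm y).trans hy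
    set u := y.re
    set v := y.im
    have hp := psi_sq
    have hl := psi_lt
    have hg := psi_gt
    have hphi : ph = psi + 1 := rfl
    rw [hphi]
    have e1 : (psi - 1 + ((psi + 1 + 1) * u - (0 + 0) * v)) *
        (psi - 1 + ((psi + 1 + 1) * u - (0 + 0) * v)) +
        (0 - 0 + ((psi + 1 + 1) * v + (0 + 0) * u)) *
        (0 - 0 + ((psi + 1 + 1) * v + (0 + 0) * u)) =
        2 - 3 * psi - 2 * u + (5 + 3 * psi) * (u * u + v * v) := by
      linear_combination (1 + 2 * u + (u * u + v * v)) * hp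
    rw [e1]
    have e2 : (11 / 4 + 3 * psi) * (u * u + v * v) ≤ (11 / 4 + 3 * psi) * (9 / 20) ^ 2 :=
      mul_le_mul_of_nonneg_left h5 (by linarith)
    nlinarith
  have h4 := lt_of_pow_lt_pow_left₀ 2 (by positivity) h3
  linarith

theorem one_add_ne {z : ℂ} (hz : -(1 / 2) < z.re) : z + 1 ≠ 0 := by
  intro h0
  have : (z + 1).re = 0 := by rw [h0]; simp
  rw [Complex.add_re, Complex.one_re] at this
  linarith

theorem branch_add_ph {z : ℂ} (hz : -(1 / 2) < z.re) :
    1 / (z + 1) + ph = ph * (z + ph) / (z + 1) := by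
  have h1 := one_add_ne hz
  have h2 := psi_mul_phC
  have h3 := phC
  field_simp
  rw [h3] at h2 ⊢
  linear_combination (-1) * h2

/-- The branch `z ↦ 1/(z+1)` in the coordinate. -/
theorem yy_branch {z : ℂ} (hz : -(1 / 2) < z.re) : yy (1 / (z + 1)) = -(psi : ℂ) ^ 2 * yy z := by
  have hne := add_ph_ne hz
  have h1 := one_add_ne hz
  have h2 := psi_mul_phC
  have h3 := phC
  have hp : (ph : ℂ) ≠ 0 := by rw [Complex.ofReal_ne_zero]; exact ph_pos.ne'
  have h4 : 1 / (z + 1) - psi = (-(psi : ℂ) * (z - psi)) / (z + 1) := by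
    field_simp
    rw [h3] at h2
    linear_combination (-1) * h2
  have h5 : (psi : ℂ) = 1 / ph := by field_simp; exact h2
  unfold yy
  rw [branch_add_ph hz, h4]
  rw [div_div_div_cancel_right₀ h1]
  have h6 : (psi : ℂ) ^ 2 = psi / ph := by rw [sq]; nth_rewrite 2 [h5]; ring
  rw [h6]
  field_simp

end Pool.Agent.Helper46.GKW
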