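import Mathlib
import Pool.Agent.Helper46.GKW.Coord

open Complex
open scoped NNReal Real InnerProductSpace

namespace Pool.Agent.Helper46.GKW

/-- The function in the coordinate `y`. -/
noncomputable def GF (F : ℂ → ℂ) (y : ℂ) : ℂ := (s5 / (1 - y)) ^ 2 * F (xx y)

/-- The radius used. -/
noncomputable def rr : ℝ≥0 := 9 / 20

theorem rr_coe : ((rr : ℝ≥0) : ℝ) = 9 / 20 := by
  unfold rr; norm_num

/-- The Taylor coefficients. -/
noncomputable def gco (F : ℂ → ℂ) (n : ℕ) : ℂ := (cauchyPowerSeries (GF F) 0 rr).coeff n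

theorem gco_eq (F : ℂ → ℂ) (n : ℕ) :
    gco F n = (2 * π * I : ℂ)⁻¹ • ∮ z in C(0, rr), (1 / (z - 0)) ^ n • (z - 0)⁻¹ • GF F z := by
  rw [← cauchyPowerSeries_apply]
  rfl

theorem ne_one_of_norm {y : ℂ} (hy : ‖y‖ ≤ 9 / 20) : y ≠ 1 := by
  intro h; rw [h] at hy; norm_num at hy

theorem GF_diff (F : ℂ → ℂ) (hF : DifferentiableOn ℂ F (Metric.ball (1 : ℂ) (3 / 2))) :
    DifferentiableOn ℂ (GF F) (Metric.closedBall 0 rr) := by
  have hmem : ∀ y ∈ Metric.closedBall (0 : ℂ) rr, ‖y‖ ≤ 9 / 20 := by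
    intro y hy
    rw [mem_closedBall_zero_iff, rr_coe] at hy
    exact hy
  have hne : ∀ y ∈ Metric.closedBall (0 : ℂ) rr, 1 - y ≠ 0 := fun y hy =>
    sub_ne_zero.2 (Ne.symm (ne_one_of_norm (hmem y hy)))
  have h1 : DifferentiableOn ℂ (fun y : ℂ => 1 - y) (Metric.closedBall 0 rr) := by fun_prop
  have h2 : DifferentiableOn ℂ (fun y : ℂ => (s5 : ℂ) / (1 - y)) (Metric.closedBall 0 rr) :=
    DifferentiableOn.div (differentiableOn_const _) h1 hne
  have h3 : DifferentiableOn ℂ xx (Metric.closedBall 0 rr) := by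
    unfold xx
    exact DifferentiableOn.div (by fun_prop) h1 hne
  exact (h2.pow 2).mul (hF.comp h3 (fun y hy => xx_mem (hmem y hy)))

theorem hasFPS (F : ℂ → ℂ) (hF : DifferentiableOn ℂ F (Metric.ball (1 : ℂ) (3 / 2))) :
    HasFPowerSeriesOnBall (GF F) (cauchyPowerSeries (GF F) 0 rr) 0 rr :=
  (GF_diff F hF).hasFPowerSeriesOnBall (by
    have : (0 : ℝ) < ((rr : ℝ≥0) : ℝ) := by rw [rr_coe]; norm_num
    exact_mod_cast this)

theorem hasSum_gco (F : ℂ → ℂ) (hF : DifferentiableOn ℂ F (Metric.ball (1 : ℂ) (3 / 2))) {y : ℂ}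
    (hy : ‖y‖ < 9 / 20) : HasSum (fun n => gco F n * y ^ n) (GF F y) := by
  have h := (hasFPS F hF).hasSum (y := y) (by
    rw [Metric.mem_eball, edist_zero_right]
    have : ‖y‖₊ < rr := by
      rw [← NNReal.coe_lt_coe, rr_coe]; exact hy
    exact_mod_cast this)
  rw [zero_add] at h
  refine h.congr_fun (fun n => ?_)
  rw [FormalMultilinearSeries.apply_eq_pow_smul_coeff, smul_eq_mul, mul_comm]
  rfl

theorem gco_bound (F : ℂ → ℂ) : ∃ M : ℝ, 0 ≤ M ∧ ∀ n, ‖gco F n‖ ≤ M * (20 / 9) ^ n := by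
  refine ⟨((2 * π)⁻¹ * ∫ θ : ℝ in 0..2 * π, ‖GF F (circleMap 0 rr θ)‖), ?_, ?_⟩
  · apply mul_nonneg (by positivity)
    exact intervalIntegral.integral_nonneg (by positivity) (fun _ _ => norm_nonneg _)
  · intro n
    have h1 := norm_cauchyPowerSeries_le (GF F) 0 rr n
    have h2 : ‖gco F n‖ ≤ ‖cauchyPowerSeries (GF F) 0 rr n‖ := by
      unfold gco
      rw [FormalMultilinearSeries.norm_apply_eq_norm_coef]
    refine h2.trans (h1.trans_eq ?_)
    rw [rr_coe]
    congr 2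
    rw [abs_of_pos (by norm_num)]
    norm_num

theorem gco_congr (F F' : ℂ → ℂ) (h : ∀ z ∈ Metric.ball (1 : ℂ) (3 / 2), F z = F' z) (n : ℕ) :
    gco F n = gco F' n := by
  rw [gco_eq, gco_eq]
  congr 1
  apply circleIntegral.integral_congr (by rw [rr_coe]; norm_num)
  intro z hz
  have hz' : ‖z‖ ≤ 9 / 20 := by
    rw [mem_sphere_zero_iff_norm, rr_coe] at hz
    exact hz.le
  simp only [GF, h _ (xx_mem hz')]

theorem circ (F : ℂ → ℂ) (hF : DifferentiableOn ℂ F (Metric.ball (1 : ℂ) (3 / 2))) (n : ℕ) :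
    CircleIntegrable (fun z => (1 / (z - 0)) ^ n • (z - 0)⁻¹ • GF F z) 0 rr := by
  apply ContinuousOn.circleIntegrable (by rw [rr_coe]; norm_num)
  have h1 : ContinuousOn (GF F) (Metric.sphere 0 rr) :=
    (GF_diff F hF).continuousOn.mono Metric.sphere_subset_closedBall
  have hne : ∀ z ∈ Metric.sphere (0 : ℂ) rr, z - 0 ≠ 0 := by
    intro z hz h0
    rw [sub_zero] at h0
    rw [mem_sphere_zero_iff_norm, rr_coe, h0] at hz
    norm_num at hz
  have h2 : ContinuousOn (fun z : ℂ => z - 0) (Metric.sphere 0 rr) := by fun_prop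
  have h3 : ContinuousOn (fun z : ℂ => 1 / (z - 0)) (Metric.sphere 0 rr) :=
    continuousOn_const.div h2 hne
  exact (h3.pow n).smul ((h2.inv₀ hne).smul h1)

theorem gco_add (F F' : ℂ → ℂ) (hF : DifferentiableOn ℂ F (Metric.ball (1 : ℂ) (3 / 2)))
    (hF' : DifferentiableOn ℂ F' (Metric.ball (1 : ℂ) (3 / 2))) (n : ℕ) :
    gco (fun z => F z + F' z) n = gco F n + gco F' n := by
  rw [gco_eq, gco_eq, gco_eq, ← smul_add, ← circleIntegral.integral_add (circ F hF n) (circ F' hF' n)]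
  congr 1
  apply circleIntegral.integral_congr (by rw [rr_coe]; norm_num)
  intro z _
  simp only [GF, smul_eq_mul]
  ring

theorem gco_smul (c : ℂ) (F : ℂ → ℂ) (n : ℕ) :
    gco (fun z => c * F z) n = c * gco F n := by
  have h1 : (∮ z in C(0, rr), c • ((1 / (z - 0)) ^ n • (z - 0)⁻¹ • GF F z)) =
      c • ∮ z in C(0, rr), (1 / (z - 0)) ^ n • (z - 0)⁻¹ • GF F z :=
    circleIntegral.integral_smul c _ _ _
  rw [gco_eq, gco_eq, ← smul_eq_mul (a := c), smul_comm c, ← h1]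
  congr 1
  apply circleIntegral.integral_congr (by rw [rr_coe]; norm_num)
  intro z _
  simp only [GF, smul_eq_mul]
  ring

theorem gco_unique (F : ℂ → ℂ) (hF : DifferentiableOn ℂ F (Metric.ball (1 : ℂ) (3 / 2)))
    (a : ℕ → ℂ) (ha : ∀ y : ℂ, ‖y‖ < 9 / 20 → HasSum (fun n => a n * y ^ n) (GF F y)) (n : ℕ) :
    gco F n = a n := by
  have h1 : HasFPowerSeriesAt (GF F) (cauchyPowerSeries (GF F) 0 rr) 0 :=
    (hasFPS F hF).hasFPowerSeriesAt
  have h2 : HasFPowerSeriesAt (GF F) (FormalMultilinearSeries.ofScalars ℂ a) 0 := by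
    rw [hasFPowerSeriesAt_iff]
    rw [Metric.eventually_nhds_iff]
    refine ⟨9 / 20, by norm_num, fun y hy => ?_⟩
    rw [dist_zero_right] at hy
    rw [zero_add]
    refine (ha y hy).congr_fun (fun n => ?_)
    rw [FormalMultilinearSeries.coeff_ofScalars, smul_eq_mul, mul_comm]
  have h3 := h1.eq_formalMultilinearSeries h2
  unfold gco
  rw [h3, FormalMultilinearSeries.coeff_ofScalars]

/-- Coefficients of the vector associated with a function. -/
noncomputable def tco (F : ℂ → ℂ) (n : ℕ) : ℂ :=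
  (-1) ^ n * ((psi ^ (n + 1) / Real.sqrt (n + 1) : ℝ) : ℂ) * gco F n

/-- The vector associated with a function. -/
noncomputable def TT (F : ℂ → ℂ) : HH := ∑' n, tco F n • cc n

theorem norm_cc_le (n : ℕ) : ‖cc n‖ ≤ Real.sqrt (1 + s5) * psi ^ (n + 1) := by
  have h1 := norm_cc_sq n
  have h2 : (1 + s5) * (psi ^ 2) ^ (n + 1) = (Real.sqrt (1 + s5) * psi ^ (n + 1)) ^ 2 := by
    rw [mul_pow, Real.sq_sqrt (by linarith [s5_pos])]
    ring
  rw [h2] at h1
  exact (sq_le_sq₀ (norm_nonneg _) (mul_nonneg (Real.sqrt_nonneg _)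
    (pow_nonneg psi_pos.le _))).1 h1

theorem norm_tco_le (F : ℂ → ℂ) (M : ℝ) (hM : ∀ n, ‖gco F n‖ ≤ M * (20 / 9) ^ n) (n : ℕ) :
    ‖tco F n‖ ≤ psi ^ (n + 1) * (M * (20 / 9) ^ n) := by
  unfold tco
  rw [norm_mul, norm_mul, norm_pow, norm_neg, norm_one, one_pow, one_mul, Complex.norm_real,
    Real.norm_eq_abs, abs_of_nonneg (by have := psi_pos; positivity)]
  have h1 : psi ^ (n + 1) / Real.sqrt (n + 1) ≤ psi ^ (n + 1) := by
    apply div_le_self (pow_nonneg psi_pos.le _)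
    rw [Real.one_le_sqrt]
    have : (0 : ℝ) ≤ n := Nat.cast_nonneg n
    linarith
  exact mul_le_mul h1 (hM n) (norm_nonneg _) (pow_nonneg psi_pos.le _)

theorem ratio_lt : psi ^ 2 * (20 / 9) < 1 := by
  rw [psi_sq]
  have := psi_gt
  linarith

theorem summable_TT (F : ℂ → ℂ) : Summable (fun n => ‖tco F n • cc n‖) := by
  obtain ⟨M, hM0, hM⟩ := gco_bound F
  have h1 : Summable (fun n : ℕ => (Real.sqrt (1 + s5) * M * psi ^ 2) * (psi ^ 2 * (20 / 9)) ^ n) := by
    apply Summable.mul_left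
    apply summable_geometric_of_lt_one _ ratio_lt
    have := psi_pos; positivity
  refine h1.of_nonneg_of_le (fun n => norm_nonneg _) (fun n => ?_)
  rw [norm_smul]
  calc ‖tco F n‖ * ‖cc n‖ ≤ (psi ^ (n + 1) * (M * (20 / 9) ^ n)) *
        (Real.sqrt (1 + s5) * psi ^ (n + 1)) :=
      mul_le_mul (norm_tco_le F M hM n) (norm_cc_le n) (norm_nonneg _)
        (by have := psi_pos; positivity)
    _ = (Real.sqrt (1 + s5) * M * psi ^ 2) * (psi ^ 2 * (20 / 9)) ^ n := by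
      rw [mul_pow, ← pow_mul, pow_succ]
      ring

theorem hasSum_TT (F : ℂ → ℂ) : HasSum (fun n => tco F n • cc n) (TT F) :=
  (summable_TT F).of_norm.hasSum

theorem TT_congr (F F' : ℂ → ℂ) (h : ∀ z ∈ Metric.ball (1 : ℂ) (3 / 2), F z = F' z) :
    TT F = TT F' := by
  unfold TT tco
  simp only [gco_congr F F' h]

theorem TT_add (F F' : ℂ → ℂ) (hF : DifferentiableOn ℂ F (Metric.ball (1 : ℂ) (3 / 2)))
    (hF' : DifferentiableOn ℂ F' (Metric.ball (1 : ℂ) (3 / 2))) :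
    TT (fun z => F z + F' z) = TT F + TT F' := by
  have h := (hasSum_TT F).add (hasSum_TT F')
  refine (hasSum_TT _).unique (h.congr_fun (fun n => ?_))
  unfold tco
  rw [gco_add F F' hF hF', mul_add, add_smul]

theorem TT_smul (c : ℂ) (F : ℂ → ℂ) : TT (fun z => c * F z) = c • TT F := by
  have h := (hasSum_TT F).const_smul c
  refine (hasSum_TT _).unique (h.congr_fun (fun n => ?_))
  unfold tco
  rw [gco_smul, smul_smul]
  congr 1
  ring

end Pool.Agent.Helper46.GKW
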