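import Mathlib
import Pool.Agent.Helper46.GKW.Coef

open Complex
open scoped NNReal Real InnerProductSpace

namespace Pool.Agent.Helper46.GKW

/-- The vectors `w_j`. -/
noncomputable def wv (j : ℕ) : HH := ww s5 s5_pos j

theorem norm_wv (j : ℕ) : ‖wv j‖ ≤ Real.sqrt (1 + s5) := by
  have h := norm_ww_sq s5 s5_pos j
  exact Real.le_sqrt_of_sq_le h

theorem cc_eq (n : ℕ) : cc n = ((psi ^ (n + 1) : ℝ) : ℂ) • wv n := rfl

/-- Coefficient functional. -/
noncomputable def aco (x : HH) (j : ℕ) : ℂ := (Real.sqrt (j + 1) : ℂ) * ⟪wv j, x⟫_ℂ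

theorem norm_aco_le (x : HH) (j : ℕ) : ‖aco x j‖ ≤ (Real.sqrt (1 + s5) * ‖x‖) * (j + 1) := by
  unfold aco
  rw [norm_mul, Complex.norm_real, Real.norm_eq_abs, abs_of_nonneg (Real.sqrt_nonneg _)]
  have h1 : Real.sqrt (j + 1) ≤ j + 1 := by
    rw [Real.sqrt_le_left (by positivity)]
    have : (0 : ℝ) ≤ j := Nat.cast_nonneg j
    nlinarith
  have h2 : ‖⟪wv j, x⟫_ℂ‖ ≤ Real.sqrt (1 + s5) * ‖x‖ :=
    (norm_inner_le_norm _ _).trans (mul_le_mul_of_nonneg_right (norm_wv j) (norm_nonneg _))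
  calc Real.sqrt (j + 1) * ‖⟪wv j, x⟫_ℂ‖ ≤ (j + 1) * (Real.sqrt (1 + s5) * ‖x‖) :=
        mul_le_mul h1 h2 (norm_nonneg _) (by positivity)
    _ = _ := by ring

theorem summable_lin_geom (R : ℝ) (h0 : 0 ≤ R) (h1 : R < 1) :
    Summable (fun j : ℕ => ((j : ℝ) + 1) * R ^ j) := by
  have h2 : Summable (fun j : ℕ => (j : ℝ) ^ 1 * R ^ j) :=
    summable_pow_mul_geometric_of_norm_lt_one 1 (by rwa [Real.norm_eq_abs, abs_of_nonneg h0])
  have h3 : Summable (fun j : ℕ => R ^ j) := summable_geometric_of_lt_one h0 h1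
  refine (h2.add h3).congr (fun j => ?_)
  ring

/-- The power series attached to a vector. -/
noncomputable def PS (x : HH) (y : ℂ) : ℂ := ∑' j, aco x j * y ^ j

theorem norm_PS_term (x : HH) (R : ℝ) (y : ℂ) (hy : ‖y‖ ≤ R) (j : ℕ) :
    ‖aco x j * y ^ j‖ ≤ (Real.sqrt (1 + s5) * ‖x‖) * (((j : ℝ) + 1) * R ^ j) := by
  rw [norm_mul, norm_pow]
  have h1 := norm_aco_le x j
  have h2 : ‖y‖ ^ j ≤ R ^ j := pow_le_pow_left₀ (norm_nonneg _) hy j
  calc ‖aco x j‖ * ‖y‖ ^ j ≤ ((Real.sqrt (1 + s5) * ‖x‖) * (j + 1)) * R ^ j :=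
        mul_le_mul h1 h2 (by positivity) (by positivity)
    _ = _ := by ring

theorem hasSum_PS (x : HH) {y : ℂ} (hy : ‖y‖ < 1) : HasSum (fun j => aco x j * y ^ j) (PS x y) :=
  (Summable.of_norm_bounded ((summable_lin_geom ‖y‖ (norm_nonneg _) hy).mul_left _)
    (norm_PS_term x ‖y‖ y le_rfl)).hasSum

theorem PS_diff (x : HH) : DifferentiableOn ℂ (PS x) (Metric.ball 0 1) := by
  intro y hy
  rw [mem_ball_zero_iff] at hy
  obtain ⟨R, hyR, hR1⟩ := exists_between hy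
  have hR0 : 0 ≤ R := (norm_nonneg _).trans hyR.le
  have h1 : DifferentiableOn ℂ (PS x) (Metric.ball 0 R) := by
    refine differentiableOn_tsum_of_summable_norm ((summable_lin_geom R hR0 hR1).mul_left _) ?_
      Metric.isOpen_ball (fun j w hw => norm_PS_term x R w (mem_ball_zero_iff.1 hw).le j)
    intro j
    fun_prop
  have h2 : DifferentiableAt ℂ (PS x) y :=
    (h1 y (mem_ball_zero_iff.2 hyR)).differentiableAt
      (Metric.isOpen_ball.mem_nhds (mem_ball_zero_iff.2 hyR))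
  exact h2.differentiableWithinAt

/-- Evaluation of the function attached to a vector. -/
noncomputable def EE (x : HH) (z : ℂ) : ℂ := 1 / (z + ph) ^ 2 * PS x (yy z)

theorem EE_diff_half (x : HH) : DifferentiableOn ℂ (EE x) {z | -(1 / 2) < z.re} := by
  have h1 : DifferentiableOn ℂ (fun z : ℂ => z + ph) {z | -(1 / 2) < z.re} := by fun_prop
  have h2 : DifferentiableOn ℂ (fun z : ℂ => 1 / (z + ph) ^ 2) {z | -(1 / 2) < z.re} :=
    DifferentiableOn.div (differentiableOn_const _) (h1.pow 2)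
      (fun z hz => pow_ne_zero _ (add_ph_ne hz))
  have h3 : DifferentiableOn ℂ yy {z | -(1 / 2) < z.re} := by
    unfold yy
    exact DifferentiableOn.div (by fun_prop) h1 (fun z hz => add_ph_ne hz)
  exact h2.mul ((PS_diff x).comp h3 (fun z hz => mem_ball_zero_iff.2 (norm_yy_lt hz)))

theorem EE_diff (x : HH) : DifferentiableOn ℂ (EE x) (Metric.ball (1 : ℂ) (3 / 2)) :=
  (EE_diff_half x).mono (fun z hz => re_gt_of_mem_ball hz)

theorem gco_EE (x : HH) (n : ℕ) : gco (EE x) n = aco x n := by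
  apply gco_unique (EE x) (EE_diff x)
  intro y hy
  have hy1 : ‖y‖ < 1 := hy.trans (by norm_num)
  have hne := ne_one_of_norm hy.le
  have h1 : GF (EE x) y = PS x y := by
    unfold GF EE
    rw [xx_add y hne, yy_xx y hne]
    have h2 : (1 - y) ≠ 0 := sub_ne_zero.2 (Ne.symm hne)
    have h3 := s5C_ne
    field_simp
  rw [h1]
  exact hasSum_PS x hy1

theorem TT_EE (x : HH) : TT (EE x) = opA cc x := by
  refine (hasSum_TT (EE x)).unique ?_
  refine (hasSum_opA_apply cc summable_cc x).congr_fun (fun n => ?_)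
  congr 1
  unfold tco
  rw [gco_EE]
  unfold aco
  rw [cc_eq, inner_smul_left, Complex.conj_ofReal]
  have h1 : (Real.sqrt (n + 1) : ℂ) ≠ 0 := by
    rw [Complex.ofReal_ne_zero]
    exact (Real.sqrt_pos.2 (by positivity)).ne'
  push_cast
  field_simp

end Pool.Agent.Helper46.GKW
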