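import Mathlib
import Pool.Agent.Helper46.GKW.Eval

open Complex Polynomial
open scoped NNReal Real InnerProductSpace

namespace Pool.Agent.Helper46.GKW

theorem wv_apply (j m i : ℕ) : (wv j m : GG) i =
    (((Real.sqrt (j + 1) * (rho s5 m * bw (rho s5 m) j i) / Real.sqrt (i + 1) : ℝ)) : ℂ) := by
  have h1 : (wv j m : GG) i = (Real.sqrt (j + 1) : ℂ) * ((rho s5 m : ℂ) *
      ((((X : ℂ[X]) ^ j).comp (aff (rho s5 m : ℂ))).coeff i / (Real.sqrt (i + 1) : ℂ))) := rfl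
  rw [h1, pow_comp, X_comp, coeff_aff_pow]
  unfold bw
  push_cast
  ring

/-- The kernel vector. -/
noncomputable def kk (y : ℂ) : HH :=
  ∑' j : ℕ, ((Real.sqrt (j + 1) : ℂ) * (starRingEnd ℂ y) ^ j) • wv j

theorem hasSum_kk {y : ℂ} (hy : ‖y‖ < 1) :
    HasSum (fun j : ℕ => ((Real.sqrt (j + 1) : ℂ) * (starRingEnd ℂ y) ^ j) • wv j) (kk y) := by
  apply Summable.hasSum
  refine Summable.of_norm_bounded
    ((summable_lin_geom ‖y‖ (norm_nonneg _) hy).mul_left (Real.sqrt (1 + s5))) (fun j => ?_)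
  rw [norm_smul, norm_mul, norm_pow, Complex.norm_real, Real.norm_eq_abs,
    abs_of_nonneg (Real.sqrt_nonneg _), RCLike.norm_conj]
  have h1 : Real.sqrt (j + 1) ≤ j + 1 := by
    rw [Real.sqrt_le_left (by positivity)]
    have : (0 : ℝ) ≤ j := Nat.cast_nonneg j
    nlinarith
  calc Real.sqrt (j + 1) * ‖y‖ ^ j * ‖wv j‖ ≤ ((j : ℝ) + 1) * ‖y‖ ^ j * Real.sqrt (1 + s5) :=
        mul_le_mul (mul_le_mul_of_nonneg_right h1 (by positivity)) (norm_wv j) (norm_nonneg _)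
          (by positivity)
    _ = _ := by ring

theorem inner_kk {y : ℂ} (hy : ‖y‖ < 1) (x : HH) : ⟪kk y, x⟫_ℂ = PS x y := by
  have h1 := (hasSum_kk hy).mapL (innerSL ℂ x)
  have h2 := (Complex.hasSum_conj').2 h1
  simp only [innerSL_apply_apply, inner_conj_symm] at h2
  refine (h2.unique ((hasSum_PS x hy).congr_fun (fun j => ?_)))
  rw [inner_smul_left]
  unfold aco
  simp only [map_mul, map_pow, Complex.conj_conj, Complex.conj_ofReal]
  ring

theorem hasSum_kk_apply {y : ℂ} (hy : ‖y‖ < 1) (m i : ℕ) :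
    HasSum (fun j : ℕ => ((Real.sqrt (j + 1) : ℂ) * (starRingEnd ℂ y) ^ j) * (wv j m : GG) i)
      ((kk y m : GG) i) := by
  have e : ∀ v : HH, innerSL ℂ (lp.single 2 m (lp.single 2 i (1 : ℂ)) : HH) v = (v m : GG) i := by
    intro v
    rw [innerSL_apply_apply, lp.inner_single_left, lp.inner_single_left]
    simp
  have h1 := (hasSum_kk hy).mapL (innerSL ℂ (lp.single 2 m (lp.single 2 i (1 : ℂ)) : HH))
  rw [e] at h1
  refine h1.congr_fun (fun j => ?_)
  rw [e]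
  rfl

theorem kk_apply {y : ℂ} (hy : ‖y‖ < 1) (m i : ℕ) :
    (kk y m : GG) i = (Real.sqrt (i + 1) : ℂ) * (rho s5 m : ℂ) *
      ((rho s5 m : ℂ) * (starRingEnd ℂ y)) ^ i /
        (1 - (1 - (rho s5 m : ℂ)) * (starRingEnd ℂ y)) ^ (i + 2) := by
  set ρ := rho s5 m with hρ
  set w := starRingEnd ℂ y with hw
  have hwn : ‖w‖ < 1 := by rw [hw, RCLike.norm_conj]; exact hy
  have hρ0 := rho_pos s5 s5_pos m
  have hρ1 := rho_le_one s5 s5_pos m
  set a : ℂ := (1 - (ρ : ℂ)) * w with ha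
  have han : ‖a‖ < 1 := by
    rw [ha, norm_mul]
    have : ‖(1 - (ρ : ℂ))‖ ≤ 1 := by
      rw [← Complex.ofReal_one, ← Complex.ofReal_sub, Complex.norm_real, Real.norm_eq_abs, abs_le]
      constructor <;> linarith
    calc ‖(1 - (ρ : ℂ))‖ * ‖w‖ ≤ 1 * ‖w‖ := mul_le_mul_of_nonneg_right this (norm_nonneg _)
      _ < 1 := by rw [one_mul]; exact hwn
  have h1 := hasSum_choose_mul_geometric_of_norm_lt_one (i + 1) han
  have h2 := h1.mul_left ((Real.sqrt (i + 1) : ℂ) * (ρ : ℂ) * ((ρ : ℂ) * w) ^ i)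
  have h3 := hasSum_kk_apply hy m i
  have h4 := (hasSum_nat_add_iff' i).2 h3
  have h5 : ∑ j ∈ Finset.range i, (Real.sqrt (j + 1) : ℂ) * w ^ j * (wv j m : GG) i = 0 := by
    apply Finset.sum_eq_zero
    intro j hj
    rw [wv_apply, bw_eq_zero _ _ _ (by simpa using hj)]
    simp
  rw [h5, sub_zero] at h4
  have h6 := h4.unique (h2.congr_fun (fun l => ?_))
  · rw [h6]
    ring
  · rw [wv_apply]
    unfold bw
    have hc : (l + i + 1) * ((l + i).choose i) = (i + 1) * ((l + (i + 1)).choose (i + 1)) := by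
      have := Nat.add_one_mul_choose_eq (l + i) i
      rw [show l + (i + 1) = l + i + 1 by ring]
      linarith
    have hc' : ((l : ℂ) + i + 1) * ((l + i).choose i : ℂ) =
        (i + 1) * ((l + (i + 1)).choose (i + 1) : ℂ) := by exact_mod_cast hc
    have s1 : (Real.sqrt (((l + i : ℕ) : ℝ) + 1) : ℂ) * (Real.sqrt (((l + i : ℕ) : ℝ) + 1) : ℂ) =
        (l : ℂ) + i + 1 := by
      rw [← Complex.ofReal_mul, Real.mul_self_sqrt (by positivity)]
      push_cast; ring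
    have s2 : (Real.sqrt ((i : ℝ) + 1) : ℂ) * (Real.sqrt ((i : ℝ) + 1) : ℂ) = (i : ℂ) + 1 := by
      rw [← Complex.ofReal_mul, Real.mul_self_sqrt (by positivity)]
      push_cast; ring
    have s3 : (Real.sqrt ((i : ℝ) + 1) : ℂ) ≠ 0 := by
      rw [Complex.ofReal_ne_zero]
      exact (Real.sqrt_pos.2 (by positivity)).ne'
    rw [Nat.add_sub_cancel]
    have e1 : (Real.sqrt (((l + i : ℕ) : ℝ) + 1) : ℂ) * w ^ (l + i) *
        ((Real.sqrt (((l + i : ℕ) : ℝ) + 1) * (ρ * (((l + i).choose i : ℝ) * (1 - ρ) ^ l * ρ ^ i)) /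
          Real.sqrt ((i : ℝ) + 1) : ℝ) : ℂ) =
        ((Real.sqrt (((l + i : ℕ) : ℝ) + 1) : ℂ) * (Real.sqrt (((l + i : ℕ) : ℝ) + 1) : ℂ)) *
          ((l + i).choose i : ℂ) * (w ^ (l + i) * ((ρ : ℂ) * ((1 - ρ) ^ l * ρ ^ i)) /
          (Real.sqrt ((i : ℝ) + 1) : ℂ)) := by
      push_cast
      ring
    rw [e1, s1, hc', ← s2, ha, mul_pow, mul_pow, pow_add]
    field_simp

end Pool.Agent.Helper46.GKW
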