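import Mathlib
import Pool.Agent.Helper46.GKW.Kern

open Complex Polynomial
open scoped NNReal Real InnerProductSpace

namespace Pool.Agent.Helper46.GKW

theorem one_sub_ne {y : ℂ} (hy : ‖y‖ < 1) (m : ℕ) : 1 - (1 - (rho s5 m : ℂ)) * y ≠ 0 := by
  intro h0
  have h1 : (1 - (rho s5 m : ℂ)) * y = 1 := (sub_eq_zero.1 h0).symm
  have h2 : ‖(1 - (rho s5 m : ℂ)) * y‖ = 1 := by rw [h1, norm_one]
  rw [norm_mul] at h2
  have hρ0 := rho_pos s5 s5_pos m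
  have hρ1 := rho_le_one s5 s5_pos m
  have h3 : ‖(1 - (rho s5 m : ℂ))‖ ≤ 1 := by
    rw [← Complex.ofReal_one, ← Complex.ofReal_sub, Complex.norm_real, Real.norm_eq_abs, abs_le]
    constructor <;> linarith
  have h4 : ‖(1 - (rho s5 m : ℂ))‖ * ‖y‖ ≤ 1 * ‖y‖ :=
    mul_le_mul_of_nonneg_right h3 (norm_nonneg _)
  linarith

theorem inner_kk_wv_comp {y : ℂ} (hy : ‖y‖ < 1) (m n : ℕ) :
    ⟪(kk y m : GG), (wv n m : GG)⟫_ℂ = (Real.sqrt (n + 1) : ℂ) *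
      (((rho s5 m : ℂ) / (1 - (1 - (rho s5 m : ℂ)) * y)) ^ 2 *
        ((1 - (rho s5 m : ℂ)) + (rho s5 m : ℂ) ^ 2 * y / (1 - (1 - (rho s5 m : ℂ)) * y)) ^ n) := by
  have hD := one_sub_ne hy m
  set ρ := rho s5 m with hρ
  set D : ℂ := 1 - (1 - (ρ : ℂ)) * y with hDdef
  have h1 := lp.hasSum_inner (𝕜 := ℂ) (kk y m : GG) (wv n m : GG)
  have hterm : ∀ i, ⟪(kk y m : GG) i, (wv n m : GG) i⟫_ℂ = (Real.sqrt (n + 1) : ℂ) *
      ((ρ : ℂ) ^ 2 / D ^ 2 * ((n.choose i : ℂ) * (1 - (ρ : ℂ)) ^ (n - i) *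
        ((ρ : ℂ) ^ 2 * y / D) ^ i)) := by
    intro i
    rw [kk_apply hy, wv_apply]
    have hc : (starRingEnd ℂ) ((Real.sqrt (i + 1) : ℂ) * (ρ : ℂ) *
      ((ρ : ℂ) * (starRingEnd ℂ y)) ^ i / (1 - (1 - (ρ : ℂ)) * (starRingEnd ℂ y)) ^ (i + 2)) =
      (Real.sqrt (i + 1) : ℂ) * (ρ : ℂ) * ((ρ : ℂ) * y) ^ i / D ^ (i + 2) := by
      rw [hDdef]
      simp only [map_mul, map_div₀, map_pow, map_sub, map_one, Complex.conj_conj,
        Complex.conj_ofReal]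
    rw [RCLike.inner_apply, hc]
    have s3 : (Real.sqrt ((i : ℝ) + 1) : ℂ) ≠ 0 := by
      rw [Complex.ofReal_ne_zero]
      exact (Real.sqrt_pos.2 (by positivity)).ne'
    unfold bw
    push_cast
    rw [div_pow, mul_pow, mul_pow, pow_add]
    field_simp
    ring
  simp only [hterm] at h1
  have h2 : HasSum (fun i => (Real.sqrt (n + 1) : ℂ) *
      ((ρ : ℂ) ^ 2 / D ^ 2 * ((n.choose i : ℂ) * (1 - (ρ : ℂ)) ^ (n - i) *
        ((ρ : ℂ) ^ 2 * y / D) ^ i))) (∑ i ∈ Finset.range (n + 1), (Real.sqrt (n + 1) : ℂ) *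
      ((ρ : ℂ) ^ 2 / D ^ 2 * ((n.choose i : ℂ) * (1 - (ρ : ℂ)) ^ (n - i) *
        ((ρ : ℂ) ^ 2 * y / D) ^ i))) := by
    apply hasSum_sum_of_ne_finset_zero
    intro i hi
    have : n < i := by simpa using hi
    rw [Nat.choose_eq_zero_of_lt this]
    simp
  rw [h1.unique h2, ← Finset.mul_sum, ← Finset.mul_sum]
  congr 1
  rw [add_comm (1 - (ρ : ℂ)), add_pow, div_pow]
  congr 1
  refine Finset.sum_congr rfl (fun i _ => ?_)
  ring

theorem coord1 {z : ℂ} (hz : -(1 / 2) < z.re) (m : ℕ) :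
    1 - (1 - (rho s5 m : ℂ)) * yy z = s5 * (z + m + ph) / ((s5 + m) * (z + ph)) := by
  have h1 := add_ph_ne hz
  have h2 : ((s5 : ℂ) + m) ≠ 0 := by
    have : (0 : ℝ) < s5 + m := by have := s5_pos; positivity
    exact_mod_cast this.ne'
  unfold yy rho
  push_cast
  rw [← ph_add_psiC] at h2 ⊢
  field_simp
  ring

theorem re_add_nat {z : ℂ} (hz : -(1 / 2) < z.re) (m : ℕ) : -(1 / 2) < (z + m).re := by
  rw [Complex.add_re, Complex.natCast_re]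
  have : (0 : ℝ) ≤ m := Nat.cast_nonneg m
  linarith

theorem coord2 {z : ℂ} (hz : -(1 / 2) < z.re) (m : ℕ) :
    (rho s5 m : ℂ) / (1 - (1 - (rho s5 m : ℂ)) * yy z) = (z + ph) / (z + m + ph) := by
  have h1 := add_ph_ne hz
  have h1' := add_ph_ne (re_add_nat hz m)
  have h2 : ((s5 : ℂ) + m) ≠ 0 := by
    have : (0 : ℝ) < s5 + m := by have := s5_pos; positivity
    exact_mod_cast this.ne'
  have h3 := s5C_ne
  rw [coord1 hz]
  unfold rho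
  push_cast
  field_simp

theorem coord3 {z : ℂ} (hz : -(1 / 2) < z.re) (m : ℕ) :
    (1 - (rho s5 m : ℂ)) + (rho s5 m : ℂ) ^ 2 * yy z / (1 - (1 - (rho s5 m : ℂ)) * yy z) =
      yy (z + m) := by
  have h1 := add_ph_ne hz
  have h1' := add_ph_ne (re_add_nat hz m)
  have h2 : ((s5 : ℂ) + m) ≠ 0 := by
    have : (0 : ℝ) < s5 + m := by have := s5_pos; positivity
    exact_mod_cast this.ne'
  have h3 := s5C_ne
  rw [coord1 hz]
  unfold yy rho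
  push_cast
  rw [← ph_add_psiC] at h2 h3 ⊢
  field_simp
  ring

theorem hasSum_inner_kk_wv {z : ℂ} (hz : -(1 / 2) < z.re) (n : ℕ) :
    HasSum (fun m : ℕ => (Real.sqrt (n + 1) : ℂ) *
      (((z + ph) / (z + m + ph)) ^ 2 * (yy (z + m)) ^ n)) ⟪kk (yy z), wv n⟫_ℂ := by
  have h1 := lp.hasSum_inner (𝕜 := ℂ) (kk (yy z)) (wv n)
  refine h1.congr_fun (fun m => ?_)
  rw [inner_kk_wv_comp (norm_yy_lt hz), coord2 hz, coord3 hz]

end Pool.Agent.Helper46.GKW
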