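import Mathlib
import Pool.Agent.Helper46.GKW.Kern2

open Complex
open scoped NNReal Real InnerProductSpace

namespace Pool.Agent.Helper46.GKW

/-- The double array. -/
noncomputable def tt (F : ℂ → ℂ) (z : ℂ) (n m : ℕ) : ℂ :=
  (-1) ^ n * (psi : ℂ) ^ (2 * (n + 1)) * gco F n * (1 / (z + m + ph) ^ 2 * (yy (z + m)) ^ n)

theorem norm_add_ph_ge {z : ℂ} (hz : -(1 / 2) < z.re) (m : ℕ) :
    ((m + 1 : ℕ) : ℝ) ≤ ‖z + m + ph‖ := by
  have h1 : (z + m + ph).re ≤ ‖z + m + ph‖ := Complex.re_le_norm _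
  simp only [Complex.add_re, Complex.natCast_re, Complex.ofReal_re] at h1
  have h2 : 1.6 ≤ ph := by unfold ph; linarith [psi_gt]
  push_cast
  linarith

theorem summable_tt (F : ℂ → ℂ) {z : ℂ} (hz : -(1 / 2) < z.re) :
    Summable (Function.uncurry (tt F z)) := by
  obtain ⟨M, hM0, hM⟩ := gco_bound F
  have h1 : Summable (fun n : ℕ => (M * psi ^ 2) * (psi ^ 2 * (20 / 9)) ^ n) := by
    apply Summable.mul_left
    apply summable_geometric_of_lt_one _ ratio_lt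
    have := psi_pos; positivity
  have h2 := Summable.mul_of_nonneg h1 summable_inv_sq
    (fun n => by have := psi_pos; positivity) (fun m => by positivity)
  refine Summable.of_norm_bounded h2 ?_
  rintro ⟨n, m⟩
  simp only [Function.uncurry]
  unfold tt
  rw [norm_mul, norm_mul, norm_mul, norm_pow, norm_neg, norm_one, one_pow, one_mul, norm_pow,
    Complex.norm_real, Real.norm_eq_abs, abs_of_pos psi_pos, norm_mul, norm_div, norm_one,
    norm_pow, norm_pow]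
  have hy := norm_yy_lt (re_add_nat hz m)
  have h3 : ‖yy (z + m)‖ ^ n ≤ 1 := pow_le_one₀ (norm_nonneg _) hy.le
  have h4 := norm_add_ph_ge hz m
  have h5 : 1 / ‖z + m + ph‖ ^ 2 ≤ 1 / ((m + 1 : ℕ) : ℝ) ^ 2 := by
    apply one_div_le_one_div_of_le (by positivity)
    exact pow_le_pow_left₀ (by positivity) h4 2
  have h6 : 1 / ‖z + m + ph‖ ^ 2 * ‖yy (z + m)‖ ^ n ≤ 1 / ((m + 1 : ℕ) : ℝ) ^ 2 * 1 :=
    mul_le_mul h5 h3 (by positivity) (by positivity)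
  calc psi ^ (2 * (n + 1)) * ‖gco F n‖ * (1 / ‖z + m + ph‖ ^ 2 * ‖yy (z + m)‖ ^ n)
      ≤ psi ^ (2 * (n + 1)) * (M * (20 / 9) ^ n) * (1 / ((m + 1 : ℕ) : ℝ) ^ 2 * 1) := by
        have := psi_pos
        exact mul_le_mul (mul_le_mul_of_nonneg_left (hM n) (by positivity)) h6 (by positivity)
          (by positivity)
    _ = (M * psi ^ 2) * (psi ^ 2 * (20 / 9)) ^ n * (1 / ((m + 1 : ℕ) : ℝ) ^ 2) := by
        rw [mul_pow, ← pow_mul]
        ring

theorem hasSum_tt_n (F : ℂ → ℂ) (hF : DifferentiableOn ℂ F (Metric.ball (1 : ℂ) (3 / 2))) {z : ℂ}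
    (hz : -(1 / 2) < z.re) (m : ℕ) :
    HasSum (fun n => tt F z n m) (1 / (z + ((m : ℂ) + 1)) ^ 2 * F (1 / (z + ((m : ℂ) + 1)))) := by
  have hzm := re_add_nat hz m
  set ζ : ℂ := z + m with hζ
  have e0 : z + ((m : ℂ) + 1) = ζ + 1 := by rw [hζ]; ring
  rw [e0]
  have hy := norm_yy_lt hzm
  set y' : ℂ := -(psi : ℂ) ^ 2 * yy ζ with hy'
  have hyn : ‖y'‖ < 9 / 20 := by
    rw [hy', norm_mul, norm_neg, norm_pow, Complex.norm_real, Real.norm_eq_abs, sq_abs, psi_sq]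
    have := psi_gt
    have h1 : 0 ≤ 1 - psi := by linarith [psi_lt]
    nlinarith [norm_nonneg (yy ζ)]
  have h1 := hasSum_gco F hF hyn
  have hne := add_ph_ne hzm
  have h1z := one_add_ne hzm
  have hbr : 1 / (ζ + 1) + (ph : ℂ) ≠ 0 := by
    rw [branch_add_ph hzm]
    have hp : (ph : ℂ) ≠ 0 := by rw [Complex.ofReal_ne_zero]; exact ph_pos.ne'
    exact div_ne_zero (mul_ne_zero hp hne) h1z
  have hyy : y' = yy (1 / (ζ + 1)) := (yy_branch hzm).symm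
  have hGF : GF F y' = (ph * (ζ + ph) / (ζ + 1)) ^ 2 * F (1 / (ζ + 1)) := by
    unfold GF
    rw [hyy, one_sub_yy _ hbr, xx_yy _ hbr, branch_add_ph hzm]
    have hp : (ph : ℂ) ≠ 0 := by rw [Complex.ofReal_ne_zero]; exact ph_pos.ne'
    have h3 := s5C_ne
    congr 2
    field_simp
  rw [hGF] at h1
  have h2 := h1.mul_left ((psi : ℂ) ^ 2 * (1 / (ζ + ph) ^ 2))
  have e1 : (psi : ℂ) ^ 2 * (1 / (ζ + ph) ^ 2) * ((ph * (ζ + ph) / (ζ + 1)) ^ 2 *
      F (1 / (ζ + 1))) = 1 / (ζ + 1) ^ 2 * F (1 / (ζ + 1)) := by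
    have h4 : (psi : ℂ) ^ 2 * (ph : ℂ) ^ 2 = 1 := by
      rw [← mul_pow, psi_mul_phC, one_pow]
    rw [div_pow, mul_pow]
    field_simp
    linear_combination (F (1 / (ζ + 1))) * h4
  rw [e1] at h2
  refine h2.congr_fun (fun n => ?_)
  unfold tt
  have e2 : (-(psi : ℂ) ^ 2) ^ n = (-1) ^ n * (psi : ℂ) ^ (2 * n) := by
    rw [neg_pow, ← pow_mul]
  rw [← hζ, hy', mul_pow, e2]
  ring

theorem hasSum_tt_m (F : ℂ → ℂ) {z : ℂ} (hz : -(1 / 2) < z.re) (n : ℕ) :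
    HasSum (fun m => tt F z n m) (1 / (z + ph) ^ 2 * (tco F n * ⟪kk (yy z), cc n⟫_ℂ)) := by
  have h1 := (hasSum_inner_kk_wv hz n).mul_left (1 / (z + ph) ^ 2 * (tco F n * (psi : ℂ) ^ (n + 1)))
  have e1 : 1 / (z + ph) ^ 2 * (tco F n * (psi : ℂ) ^ (n + 1)) * ⟪kk (yy z), wv n⟫_ℂ =
      1 / (z + ph) ^ 2 * (tco F n * ⟪kk (yy z), cc n⟫_ℂ) := by
    rw [cc_eq, inner_smul_right]
    push_cast
    ring
  rw [e1] at h1
  refine h1.congr_fun (fun m => ?_)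
  unfold tt tco
  have h2 : (Real.sqrt (n + 1) : ℂ) ≠ 0 := by
    rw [Complex.ofReal_ne_zero]
    exact (Real.sqrt_pos.2 (by positivity)).ne'
  have h3 := add_ph_ne hz
  have h4 := add_ph_ne (re_add_nat hz m)
  push_cast
  rw [div_pow, mul_comm 2 (n + 1), pow_mul]
  field_simp

theorem LL_eq_EE (F : ℂ → ℂ) (hF : DifferentiableOn ℂ F (Metric.ball (1 : ℂ) (3 / 2))) {z : ℂ}
    (hz : -(1 / 2) < z.re) : LL F z = EE (TT F) z := by
  have h1 := (summable_tt F hz).tsum_comm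
  have h2 : ∑' m, ∑' n, tt F z n m = LL F z := by
    unfold LL
    exact tsum_congr (fun m => (hasSum_tt_n F hF hz m).tsum_eq)
  have h3 : ∑' n, ∑' m, tt F z n m = EE (TT F) z := by
    have h4 : ∀ n, ∑' m, tt F z n m = 1 / (z + ph) ^ 2 * (tco F n * ⟪kk (yy z), cc n⟫_ℂ) :=
      fun n => (hasSum_tt_m F hz n).tsum_eq
    simp only [h4]
    rw [tsum_mul_left]
    unfold EE
    rw [← inner_kk (norm_yy_lt hz)]
    congr 1
    have h5 := (hasSum_TT F).mapL (innerSL ℂ (kk (yy z)))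
    simp only [innerSL_apply_apply, inner_smul_right] at h5
    exact h5.tsum_eq
  rw [← h2, ← h3]
  exact h1

end Pool.Agent.Helper46.GKW
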