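import Mathlib
import Pool.Agent.Helper46.GKW.Link

open Complex
open Module Module.End

namespace Pool.Agent.Helper46.GKW

section algebra

variable {V₁ V₂ : Type*} [AddCommGroup V₁] [Module ℂ V₁] [AddCommGroup V₂] [Module ℂ V₂]

theorem pow_intertwine (L : Module.End ℂ V₁) (A : Module.End ℂ V₂) (T : V₁ →ₗ[ℂ] V₂)
    (h1 : ∀ f, T (L f) = A (T f)) (μ : ℂ) (k : ℕ) (f : V₁) :
    ((A - μ • (1 : Module.End ℂ V₂)) ^ k) (T f) = T (((L - μ • (1 : Module.End ℂ V₁)) ^ k) f) := by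
  induction k with
  | zero => simp
  | succ k ih =>
    rw [pow_succ', pow_succ', Module.End.mul_apply, Module.End.mul_apply, ih]
    simp only [LinearMap.sub_apply, LinearMap.smul_apply, Module.End.one_apply, map_sub, map_smul,
      h1]

theorem maps_maxGen (L : Module.End ℂ V₁) (A : Module.End ℂ V₂) (T : V₁ →ₗ[ℂ] V₂)
    (h1 : ∀ f, T (L f) = A (T f)) (μ : ℂ) (f : V₁) (hf : f ∈ L.maxGenEigenspace μ) :
    T f ∈ A.maxGenEigenspace μ := by
  rw [mem_maxGenEigenspace] at hf ⊢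
  obtain ⟨k, hk⟩ := hf
  exact ⟨k, by rw [pow_intertwine L A T h1, hk, map_zero]⟩

theorem inj_maxGen (L : Module.End ℂ V₁) (T : V₁ →ₗ[ℂ] V₂) (S : V₂ →ₗ[ℂ] V₁)
    (h3 : ∀ f, S (T f) = L (L f)) (μ : ℂ) (hμ : μ ≠ 0) (f : V₁) (hf : f ∈ L.maxGenEigenspace μ)
    (hT : T f = 0) : f = 0 := by
  have h4 : L (L f) = 0 := by rw [← h3, hT, map_zero]
  have h5 : f ∈ L.maxGenEigenspace 0 := by
    rw [mem_maxGenEigenspace]
    exact ⟨2, by simpa [pow_two] using h4⟩
  have h6 := disjoint_genEigenspace L hμ ⊤ ⊤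
  exact (Submodule.disjoint_def.1 h6) f hf h5

theorem inj_restr (L : Module.End ℂ V₁) (A : Module.End ℂ V₂) (T : V₁ →ₗ[ℂ] V₂)
    (S : V₂ →ₗ[ℂ] V₁) (h1 : ∀ f, T (L f) = A (T f)) (h3 : ∀ f, S (T f) = L (L f)) (μ : ℂ)
    (hμ : μ ≠ 0) :
    ∃ Φ : L.maxGenEigenspace μ →ₗ[ℂ] A.maxGenEigenspace μ, Function.Injective Φ := by
  refine ⟨T.restrict (p := L.maxGenEigenspace μ) (q := A.maxGenEigenspace μ)
    (maps_maxGen L A T h1 μ), ?_⟩
  rw [← LinearMap.ker_eq_bot, LinearMap.ker_eq_bot']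
  intro f hf
  apply Subtype.ext
  apply inj_maxGen L T S h3 μ hμ f f.2
  have := congrArg Subtype.val hf
  simpa using this

theorem transfer_spec (L : Module.End ℂ V₁) (A : Module.End ℂ V₂) (T : V₁ →ₗ[ℂ] V₂)
    (S : V₂ →ₗ[ℂ] V₁) (h1 : ∀ f, T (L f) = A (T f)) (h2 : ∀ x, S (A x) = L (S x))
    (h3 : ∀ f, S (T f) = L (L f)) (h4 : ∀ x, T (S x) = A (A x)) (μ : ℂ) (hμ : μ ≠ 0) :
    (HasEigenvalue L μ ↔ HasEigenvalue A μ) ∧
    (finrank ℂ (A.maxGenEigenspace μ) = 1 → finrank ℂ (L.maxGenEigenspace μ) = 1) := by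
  constructor
  · constructor
    · intro h
      obtain ⟨f, hf⟩ := h.exists_hasEigenvector
      have hLf : L f = μ • f := hf.apply_eq_smul
      apply hasEigenvalue_of_hasEigenvector (x := T f)
      refine ⟨?_, ?_⟩
      · rw [mem_eigenspace_iff, ← h1, hLf, map_smul]
      · intro h0
        have h5 := h3 f
        rw [h0, map_zero, hLf, map_smul, hLf, smul_smul] at h5
        rcases smul_eq_zero.1 h5.symm with h6 | h6
        · exact hμ (mul_self_eq_zero.1 h6)
        · exact hf.2 h6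
    · intro h
      obtain ⟨f, hf⟩ := h.exists_hasEigenvector
      have hLf : A f = μ • f := hf.apply_eq_smul
      apply hasEigenvalue_of_hasEigenvector (x := S f)
      refine ⟨?_, ?_⟩
      · rw [mem_eigenspace_iff, ← h2, hLf, map_smul]
      · intro h0
        have h5 := h4 f
        rw [h0, map_zero, hLf, map_smul, hLf, smul_smul] at h5
        rcases smul_eq_zero.1 h5.symm with h6 | h6
        · exact hμ (mul_self_eq_zero.1 h6)
        · exact hf.2 h6
  · intro h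
    obtain ⟨Φ, hΦ⟩ := inj_restr L A T S h1 h3 μ hμ
    obtain ⟨Ψ, hΨ⟩ := inj_restr A L S T h2 h4 μ hμ
    have hfin : Module.Finite ℂ (A.maxGenEigenspace μ) :=
      Module.finite_of_finrank_pos (by omega)
    have hfin2 : Module.Finite ℂ (L.maxGenEigenspace μ) := Module.Finite.of_injective Φ hΦ
    have h5 := LinearMap.finrank_le_finrank_of_injective hΦ
    have h6 := LinearMap.finrank_le_finrank_of_injective hΨ
    omega

end algebra

/-- From the space `V` to `HH`. -/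
noncomputable def Tlin : V →ₗ[ℂ] HH where
  toFun f := TT (f : ℂ → ℂ)
  map_add' f g := by
    rw [← TT_add _ _ (V_diff f) (V_diff g)]
    rfl
  map_smul' c f := by
    rw [RingHom.id_apply, ← TT_smul]
    rfl

theorem aco_add (x y : HH) (j : ℕ) : aco (x + y) j = aco x j + aco y j := by
  unfold aco; rw [inner_add_right]; ring

theorem aco_smul (c : ℂ) (x : HH) (j : ℕ) : aco (c • x) j = c * aco x j := by
  unfold aco; rw [inner_smul_right]; ring

theorem EE_add (x y : HH) {z : ℂ} (hz : -(1 / 2) < z.re) : EE (x + y) z = EE x z + EE y z := by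
  unfold EE
  have h := (hasSum_PS x (norm_yy_lt hz)).add (hasSum_PS y (norm_yy_lt hz))
  have h2 : PS (x + y) (yy z) = PS x (yy z) + PS y (yy z) := by
    refine (hasSum_PS (x + y) (norm_yy_lt hz)).unique (h.congr_fun (fun j => ?_))
    rw [aco_add]; ring
  rw [h2]; ring

theorem EE_smul (c : ℂ) (x : HH) {z : ℂ} (hz : -(1 / 2) < z.re) : EE (c • x) z = c * EE x z := by
  unfold EE
  have h := (hasSum_PS x (norm_yy_lt hz)).mul_left c
  have h2 : PS (c • x) (yy z) = c * PS x (yy z) := by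
    refine (hasSum_PS (c • x) (norm_yy_lt hz)).unique (h.congr_fun (fun j => ?_))
    rw [aco_smul]; ring
  rw [h2]; ring

theorem re_inv_gt {z : ℂ} (hz : z ∈ Om) (m : ℕ) : -(1 / 2) < (1 / (z + ((m : ℂ) + 1))).re :=
  re_gt_of_mem_ball (closedBall_sub_ball (inv_mem (re_shift hz m)))

theorem LL_congr (F F' : ℂ → ℂ) (h : ∀ w ∈ Metric.ball (1 : ℂ) (3 / 2), F w = F' w) {z : ℂ}
    (hz : z ∈ Om) : LL F z = LL F' z := by
  unfold LL
  refine tsum_congr (fun m => ?_)
  rw [h _ (closedBall_sub_ball (inv_mem (re_shift hz m)))]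

/-- From `HH` to the space `V`. -/
noncomputable def Slin : HH →ₗ[ℂ] V where
  toFun x := restr (LL (EE x)) (differentiableOn_LL _ (EE_diff x))
  map_add' x y := by
    apply Subtype.ext
    funext p
    change (restr (LL (EE (x + y))) _ : ℂ → ℂ) p =
      (restr (LL (EE x)) _ : ℂ → ℂ) p + (restr (LL (EE y)) _ : ℂ → ℂ) p
    by_cases hd : p ∈ disc
    · rw [restr_apply _ _ hd, restr_apply _ _ hd, restr_apply _ _ hd]
      have hp := mem_Om_of_mem hd
      have h1 := summable_LL _ (EE_diff x) hp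
      have h2 := summable_LL _ (EE_diff y) hp
      unfold LL
      rw [← h1.tsum_add h2]
      refine tsum_congr (fun m => ?_)
      rw [EE_add x y (re_inv_gt hp m)]; ring
    · simp [restr, hd]
  map_smul' c x := by
    apply Subtype.ext
    funext p
    change (restr (LL (EE (c • x))) _ : ℂ → ℂ) p = c * (restr (LL (EE x)) _ : ℂ → ℂ) p
    by_cases hd : p ∈ disc
    · rw [restr_apply _ _ hd, restr_apply _ _ hd]
      have hp := mem_Om_of_mem hd
      unfold LL
      rw [← tsum_mul_left]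
      refine tsum_congr (fun m => ?_)
      rw [EE_smul c x (re_inv_gt hp m)]; ring
    · simp [restr, hd]

theorem gkw_ext_eq (f : V) {z : ℂ} (hz : z ∈ Metric.ball (1 : ℂ) (3 / 2)) :
    (gkw f : ℂ → ℂ) z = EE (Tlin f) z := by
  rw [gkw_apply f (openDisc_sub hz)]
  exact LL_eq_EE _ (V_diff f) (re_gt_of_mem_ball hz)

theorem Slin_ext_eq (x : HH) {z : ℂ} (hz : z ∈ Metric.ball (1 : ℂ) (3 / 2)) :
    (Slin x : ℂ → ℂ) z = EE (opA cc x) z := by
  change (restr (LL (EE x)) (differentiableOn_LL _ (EE_diff x)) : ℂ → ℂ) z = _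
  rw [restr_apply _ _ (openDisc_sub hz), LL_eq_EE _ (EE_diff x) (re_gt_of_mem_ball hz), TT_EE]

theorem rel1 (f : V) : Tlin (gkw f) = opA cc (Tlin f) := by
  rw [← TT_EE]
  exact TT_congr _ _ (fun z hz => gkw_ext_eq f hz)

theorem V_ext (f g : V) (h : ∀ z ∈ disc, (f : ℂ → ℂ) z = (g : ℂ → ℂ) z) : f = g := by
  apply Subtype.ext
  funext z
  by_cases hz : z ∈ disc
  · exact h z hz
  · rw [f.2.2.2 z hz, g.2.2.2 z hz]

theorem rel2 (x : HH) : Slin (opA cc x) = gkw (Slin x) := by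
  apply V_ext
  intro p hp
  rw [gkw_apply _ hp]
  change (restr (LL (EE (opA cc x))) (differentiableOn_LL _ (EE_diff _)) : ℂ → ℂ) p = _
  rw [restr_apply _ _ hp]
  exact LL_congr _ _ (fun w hw => (Slin_ext_eq x hw).symm) (mem_Om_of_mem hp)

theorem rel3 (f : V) : Slin (Tlin f) = gkw (gkw f) := by
  apply V_ext
  intro p hp
  rw [gkw_apply _ hp]
  change (restr (LL (EE (Tlin f))) (differentiableOn_LL _ (EE_diff _)) : ℂ → ℂ) p = _
  rw [restr_apply _ _ hp]
  exact LL_congr _ _ (fun w hw => (gkw_ext_eq f hw).symm) (mem_Om_of_mem hp)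

theorem rel4 (x : HH) : Tlin (Slin x) = opA cc (opA cc x) := by
  rw [← TT_EE (opA cc x)]
  exact TT_congr _ _ (fun z hz => Slin_ext_eq x hz)

theorem main_gkw :
    ∃ lam : ℕ → ℝ, (∀ n, 0 < (-1 : ℝ) ^ n * lam n) ∧ StrictAnti (fun n => |lam n|) ∧
      Filter.Tendsto lam Filter.atTop (nhds 0) ∧
      (∀ μ : ℂ, μ ≠ 0 → (HasEigenvalue gkw μ ↔ ∃ n, μ = lam n)) ∧
      ∀ n, Module.finrank ℂ (maxGenEigenspace gkw (lam n : ℂ)) = 1 := by
  obtain ⟨lam, h1, h2, h3, h4, h5⟩ := main_opA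
  have key := fun (μ : ℂ) (hμ : μ ≠ 0) => transfer_spec gkw (opA cc : Module.End ℂ HH) Tlin Slin
    rel1 rel2 rel3 rel4 μ hμ
  refine ⟨lam, h1, h2, h3, ?_, ?_⟩
  · intro μ hμ
    rw [(key μ hμ).1]
    exact h4 μ hμ
  · intro n
    have hne : (lam n : ℂ) ≠ 0 := by
      rw [Complex.ofReal_ne_zero]
      intro h0
      have := h1 n
      rw [h0, mul_zero] at this
      exact lt_irrefl _ this
    exact (key _ hne).2 (h5 n)

end Pool.Agent.Helper46.GKW
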