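import Mathlib
import Pool.Agent.Helper46.GKW.Transfer

open Module Module.End

namespace Pool.Agent.Helper46.GKW

theorem exists_generator {V₁ : Type*} [AddCommGroup V₁] [Module ℂ V₁] (L : Module.End ℂ V₁) (μ : ℂ)
    (h : finrank ℂ (maxGenEigenspace L μ) = 1) :
    ∃ v : V₁, ∀ w ∈ maxGenEigenspace L μ, ∃ c : ℂ, c • v = w := by
  obtain ⟨v, _, hv⟩ := finrank_eq_one_iff'.1 h
  refine ⟨v, fun w hw => ?_⟩
  obtain ⟨c, hc⟩ := hv ⟨w, hw⟩
  exact ⟨c, congrArg Subtype.val hc⟩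

theorem val_pow_sub (μ : ℂ) (k : ℕ) (g : V) :
    ((((gkw - μ • (1 : Module.End ℂ V)) ^ k) g : V) : ℂ → ℂ) =
      (fun (h : ℂ → ℂ) (x : ℂ) => gkwOp h x - μ * h x)^[k] g := by
  induction k with
  | zero => simp
  | succ k ih =>
    rw [pow_succ', Module.End.mul_apply, Function.iterate_succ_apply', ← ih]
    rfl

theorem main_final :
    ∃ lam : ℕ → ℝ,
      (∀ n, 0 < (-1 : ℝ) ^ n * lam n) ∧
      StrictAnti (fun n => |lam n|) ∧
      Filter.Tendsto lam Filter.atTop (nhds 0) ∧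
      (∀ μ : ℂ, μ ≠ 0 →
        ((∃ f : ℂ → ℂ, IsV f ∧ f ≠ 0 ∧ ∀ x, gkwOp f x = μ * f x) ↔ ∃ n, μ = lam n)) ∧
      ∀ n, ∃ f : ℂ → ℂ, IsV f ∧ f ≠ 0 ∧ (∀ x, gkwOp f x = lam n * f x) ∧
        ∀ g : ℂ → ℂ, IsV g →
          ∀ k : ℕ, (fun (h : ℂ → ℂ) (x : ℂ) => gkwOp h x - lam n * h x)^[k] g = 0 →
            ∃ c : ℂ, ∀ x, g x = c * f x := by
  obtain ⟨lam, h1, h2, h3, h4, h5⟩ := main_gkw
  have hne : ∀ n, (lam n : ℂ) ≠ 0 := by
    intro n
    rw [Complex.ofReal_ne_zero]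
    intro h0
    have := h1 n
    rw [h0, mul_zero] at this
    exact lt_irrefl _ this
  refine ⟨lam, h1, h2, h3, ?_, ?_⟩
  · intro μ hμ
    rw [← h4 μ hμ]
    constructor
    · rintro ⟨f, hf, hf0, hL⟩
      apply hasEigenvalue_of_hasEigenvector (x := (⟨f, hf⟩ : V))
      refine ⟨?_, ?_⟩
      · rw [mem_eigenspace_iff]
        apply Subtype.ext
        funext x
        exact hL x
      · intro h0
        exact hf0 (congrArg Subtype.val h0)
    · intro h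
      obtain ⟨f, hf⟩ := h.exists_hasEigenvector
      refine ⟨f, f.2, fun h0 => hf.2 (Subtype.ext h0), fun x => ?_⟩
      exact congrFun (congrArg Subtype.val hf.apply_eq_smul) x
  · intro n
    have hev : HasEigenvalue gkw (lam n : ℂ) := (h4 _ (hne n)).2 ⟨n, rfl⟩
    obtain ⟨f, hf⟩ := hev.exists_hasEigenvector
    have hfm : f ∈ maxGenEigenspace gkw (lam n : ℂ) :=
      eigenspace_le_maxGenEigenspace hf.1
    obtain ⟨v, hv⟩ := exists_generator gkw (lam n : ℂ) (h5 n)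
    obtain ⟨c0, hc0'⟩ := hv f hfm
    have hc0ne : c0 ≠ 0 := by
      intro h0
      rw [h0, zero_smul] at hc0'
      exact hf.2 hc0'.symm
    refine ⟨f, f.2, fun h0 => hf.2 (Subtype.ext h0), fun x => ?_, ?_⟩
    · exact congrFun (congrArg Subtype.val hf.apply_eq_smul) x
    · intro g hg k hk
      have hgm : (⟨g, hg⟩ : V) ∈ maxGenEigenspace gkw (lam n : ℂ) := by
        rw [mem_maxGenEigenspace]
        refine ⟨k, ?_⟩
        apply Subtype.ext
        rw [val_pow_sub]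
        exact hk
      obtain ⟨c, hc'⟩ := hv ⟨g, hg⟩ hgm
      refine ⟨c * c0⁻¹, fun x => ?_⟩
      have h6 : (⟨g, hg⟩ : V) = (c * c0⁻¹) • f := by
        rw [← hc', ← hc0', smul_smul, mul_assoc, inv_mul_cancel₀ hc0ne, mul_one]
      exact congrFun (congrArg Subtype.val h6) x

end Pool.Agent.Helper46.GKW
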